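import Pool.Agent.Q145.LT.Nr
import Pool.Agent.Q145.LX.Fi

/-!
# Project LX: the full series of most systems (adapted from `Pool/Agent/Q145/LT/Nr.lean`)
-/

set_option autoImplicit false
set_option linter.all false

namespace Pool.Agent.Q145.LX

open Finset Filter
open Pool.Agent.Q145.SZ Pool.Agent.Q145.LQ Pool.Agent.Q145.LE Pool.Agent.Q145.LT

/-- the truncated series -/
theorem near_truncX : ∀ e δ : ℝ, 0 < e → 0 < δ → ∃ M g : ℝ, 64 ≤ M ∧ 0 < g ∧ ∀ (z w Y X K : ℕ) (H : Fin K → ℕ) (q : Fin K → Polynomial ℤ), M ≤ Real.log (Real.log X) →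
    64 * Real.log (Real.log X) ≤ z → 64 * z * Real.log (Real.log X) ≤ Real.log X → 64 * (z : ℝ) ≤ Real.log Y → Y ≤ X → 8 * (K + 1) ≤ z → SysL z Y X H q → GG z q ≤ g → z ≤ w → (w : ℝ) ^ 20 ≤ X →
    NearQ z H q (fun s => singPQ q s w) e δ := by
  classical
  intro e δ he hδ
  obtain ⟨C, X₀, z₀, hC, ht⟩ := tailL e he
  set M : ℝ := 64 + X₀ + z₀ + Real.exp (2 * C / δ) with hM
  have p1 := Real.exp_pos (2 * C / δ)
  have p2 : (0 : ℝ) ≤ X₀ := by positivity
  have p3 : (0 : ℝ) ≤ z₀ := by positivity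
  have hM64 : 64 ≤ M := by linarith
  refine ⟨M, δ / (2 * C), hM64, by positivity, ?_⟩
  intro z w Y X K H q hX hz hzX hzY hYX hK hS hg hzw hw b
  obtain ⟨hL0, hLM, hzM, hzL, hzl, hXe, hYe, hLe, hl64, hlL, hYXl, hzY64⟩ := elemX hM64 (le_refl (64 : ℝ)) hX hYX hz hzX hzY
  have hXL : Real.log X ≤ X := by
    have := Real.add_one_le_exp (Real.log X)
    rw [← hXe] at this; linarith
  have hX0 : X₀ ≤ X := by
    have : (X₀ : ℝ) ≤ X := by linarith
    exact_mod_cast this
  have hz0 : z₀ ≤ z := by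
    have : (z₀ : ℝ) ≤ z := by linarith
    exact_mod_cast this
  have hzpos : (0 : ℝ) < z := by linarith
  have hW20 : (PW z : ℝ) ^ 20 ≤ X := by
    calc (PW z : ℝ) ^ 20 ≤ (Real.exp (2 * z)) ^ 20 := by gcongr; exact PW_le Pool.Agent.Q111.SZ.t_PWB z
      _ = Real.exp (40 * z) := by rw [← Real.exp_nat_mul]; ring_nf
      _ ≤ Real.exp (Real.log X) := Real.exp_le_exp.2 (by linarith)
      _ = X := hXe.symm
  have h1 := ht z w Y X K H q hX0 hz0 hK hS (by linarith) hW20 hzw hw b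
  have hlz : 2 * C / δ ≤ Real.log z := by
    rw [Real.le_log_iff_exp_le hzpos]
    linarith
  have hlz0 : 0 < Real.log z := lt_of_lt_of_le (by positivity) hlz
  have h2 : C / Real.log z ≤ δ / 2 := by
    rw [div_le_iff₀ hlz0]
    rw [div_le_iff₀ hδ] at hlz
    linarith
  have h2' : C * GG z q ≤ δ / 2 := by
    have := mul_le_mul_of_nonneg_left hg hC.le
    have e1 : C * (δ / (2 * C)) = δ / 2 := by field_simp
    linarith
  have h3 : (0 : ℝ) ≤ (SbQ H b).card := Nat.cast_nonneg _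
  have h4 : (((SbQ H b).filter fun s => ¬ (AdmQ q s → |singPQ q s w - singPQ q s z| ≤ e * singPQ q s z)).card : ℝ) ≤
      (((SbQ H b).filter fun s => ¬ (|singPQ q s w - singPQ q s z| ≤ e * singPQ q s z)).card : ℝ) := by
    have : ((SbQ H b).filter fun s => ¬ (AdmQ q s → |singPQ q s w - singPQ q s z| ≤ e * singPQ q s z)) ⊆
        ((SbQ H b).filter fun s => ¬ (|singPQ q s w - singPQ q s z| ≤ e * singPQ q s z)) := by
      intro s hs
      rw [mem_filter] at hs ⊢
      refine ⟨hs.1, fun h => hs.2 fun _ => h⟩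
    exact_mod_cast card_le_card this
  have h5 := h4.trans (h1.trans (mul_le_mul_of_nonneg_right (show C / Real.log z + C * GG z q ≤ δ by linarith) h3))
  convert h5 using 2

open Classical in
/-- the full series of linear systems -/
theorem near_linX : ∀ e δ : ℝ, 0 < e → 0 < δ → ∃ M g : ℝ, 64 ≤ M ∧ 0 < g ∧ ∀ (z Y X K : ℕ) (H : Fin K → ℕ) (q : Fin K → Polynomial ℤ), M ≤ Real.log (Real.log X) →
    64 * Real.log (Real.log X) ≤ z → 64 * z * Real.log (Real.log X) ≤ Real.log X → 64 * (z : ℝ) ≤ Real.log Y → Y ≤ X → 16 * (K + 1) ≤ z → SysL z Y X H q → GG z q ≤ g →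
    NearQ z H q (singQ q) e δ := by
  intro e δ he hδ
  set e' : ℝ := min (min e 1 / 4) (δ / 2) with he'
  have he'0 : 0 < e' := by positivity
  have he'a : 4 * e' ≤ e := by
    have h1 : e' ≤ min e 1 / 4 := min_le_left _ _
    have h2 : min e 1 ≤ e := min_le_left _ _
    linarith
  have he'b : e' ≤ 1 := by
    have h1 : e' ≤ min e 1 / 4 := min_le_left _ _
    have h2 : min e 1 ≤ 1 := min_le_right _ _
    linarith
  have he'c : e' ≤ δ / 2 := min_le_right _ _
  obtain ⟨M₁, g, hM₁, hg, ht⟩ := near_truncX e' (δ / 2) he'0 (by positivity)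
  obtain ⟨Y₀, hf⟩ := far_mostL e' he'0
  set M : ℝ := M₁ + Y₀ with hM
  have p2 : (0 : ℝ) ≤ Y₀ := by positivity
  have hM64 : 64 ≤ M := by linarith
  refine ⟨M, g, hM64, hg, ?_⟩
  intro z Y X K H q hX hz hzX hzY hYX hK hS hGG b
  obtain ⟨hL0, hLM, hzM, hzL, hzl, hXe, hYe, hLe, hl64, hlL, hYXl, hzY64⟩ := elemX hM64 (le_refl (64 : ℝ)) hX hYX hz hzX hzY
  have hY1 : 1 ≤ X := by
    rcases Nat.eq_zero_or_pos X with h | h
    · rw [h] at hL0
      simp at hL0
    · exact h
  have hz0 : (0 : ℝ) < z := by linarith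
  have hzl' : 64 * (z : ℝ) ≤ z * Real.log (Real.log X) := by nlinarith
  have hzLY : 4096 * (z : ℝ) ≤ Real.log X := by linarith
  have hY0 : (0 : ℝ) < X := by exact_mod_cast hY1
  have hY2 : 2 ≤ Y := two_le_of_log hzY64 (by linarith)
  have hLYY : Real.log X ≤ X := by
    have := Real.add_one_le_exp (Real.log X)
    rw [← hXe] at this; linarith
  have hY₀ : Y₀ ≤ X := by
    have : (Y₀ : ℝ) ≤ X := by linarith
    exact_mod_cast this
  have hW40 : (PW z : ℝ) ^ 40 ≤ X := by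
    calc (PW z : ℝ) ^ 40 ≤ (Real.exp (2 * z)) ^ 40 := by gcongr; exact PW_le Pool.Agent.Q111.SZ.t_PWB z
      _ = Real.exp (80 * z) := by rw [← Real.exp_nat_mul]; ring_nf
      _ ≤ Real.exp (Real.log X) := Real.exp_le_exp.2 (by linarith)
      _ = X := hXe.symm
  have hU2 : (Uz z : ℝ) ^ 2 ≤ X := by
    calc (Uz z : ℝ) ^ 2 ≤ (Real.exp (12 * z)) ^ 2 := by gcongr; exact Uz_le_exp z
      _ = Real.exp (24 * z) := by rw [← Real.exp_nat_mul]; ring_nf
      _ ≤ Real.exp (Real.log X) := Real.exp_le_exp.2 (by linarith)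
      _ = X := hXe.symm
  have hzw : z ≤ w0 X := by
    apply le_w0 hY1
    have h1 : ((2 ^ 40 * z ^ 40 : ℕ) : ℝ) ≤ (X : ℝ) := by
      rw [Nat.cast_mul, Nat.cast_pow, Nat.cast_pow, Nat.cast_ofNat]
      have h2 : (2 : ℝ) ≤ Real.exp z := by
        have := Real.add_one_le_exp (z : ℝ)
        linarith
      have h3 : (z : ℝ) ≤ Real.exp z := by
        have := Real.add_one_le_exp (z : ℝ)
        linarith
      calc (2 : ℝ) ^ 40 * (z : ℝ) ^ 40 ≤ (Real.exp z) ^ 40 * (Real.exp z) ^ 40 := by gcongr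
        _ = Real.exp (80 * z) := by rw [← Real.exp_nat_mul, ← Real.exp_add]; ring_nf
        _ ≤ Real.exp (Real.log X) := Real.exp_le_exp.2 (by linarith)
        _ = X := hXe.symm
    exact_mod_cast h1
  have h1 := ht z (w0 X) Y X K H q (by linarith) hz hzX hzY hYX (by omega) hS hGG hzw (w0_pow_le hY1) b
  have h2 := hf z Y X K H q hY₀ hY2 hK hS (by linarith) hW40 hU2 b
  have h3 : (0 : ℝ) ≤ (SbQ H b).card := Nat.cast_nonneg _
  have hsub : ((SbQ H b).filter fun s => ¬ (AdmQ q s → |singQ q s - singPQ q s z| ≤ e * singPQ q s z)) ⊆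
      ((SbQ H b).filter fun s => ¬ (AdmQ q s → |singPQ q s (w0 X) - singPQ q s z| ≤ e' * singPQ q s z)) ∪
      ((SbQ H b).filter fun s => ¬ (AdmQ q s → 0 < singQ q s ∧ Tendsto (singPQ q s) atTop (nhds (singQ q s)) ∧
        |singQ q s - singPQ q s (w0 X)| ≤ e' * singPQ q s (w0 X))) := by
    intro s hs
    rw [mem_filter] at hs
    obtain ⟨hs1, hs2⟩ := hs
    rw [mem_union, mem_filter, mem_filter]
    by_contra hcon
    rw [not_or] at hcon
    obtain ⟨c1, c2⟩ := hcon
    have c1 : AdmQ q s → |singPQ q s (w0 X) - singPQ q s z| ≤ e' * singPQ q s z := by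
      by_contra h
      exact c1 ⟨hs1, h⟩
    have c2 : AdmQ q s → 0 < singQ q s ∧ Tendsto (singPQ q s) atTop (nhds (singQ q s)) ∧
        |singQ q s - singPQ q s (w0 X)| ≤ e' * singPQ q s (w0 X) := by
      by_contra h
      exact c2 ⟨hs1, h⟩
    apply hs2
    intro had
    exact near_comb (Pool.Agent.Q151.LQ.singPQ_nonneg q s z) he'0.le he'b he'a (c1 had) (c2 had).2.2
  have h4 := (card_le_card hsub).trans (card_union_le _ _)
  have h5 : ((((SbQ H b).filter fun s => ¬ (AdmQ q s → |singQ q s - singPQ q s z| ≤ e * singPQ q s z))).card : ℝ) ≤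
      ((((SbQ H b).filter fun s => ¬ (AdmQ q s → |singPQ q s (w0 X) - singPQ q s z| ≤ e' * singPQ q s z))).card : ℝ) +
      ((((SbQ H b).filter fun s => ¬ (AdmQ q s → 0 < singQ q s ∧ Tendsto (singPQ q s) atTop (nhds (singQ q s)) ∧
        |singQ q s - singPQ q s (w0 X)| ≤ e' * singPQ q s (w0 X)))).card : ℝ) := by exact_mod_cast h4
  have h6 : e' * ((SbQ H b).card : ℝ) ≤ δ / 2 * ((SbQ H b).card : ℝ) := mul_le_mul_of_nonneg_right he'c h3
  have h7 : δ / 2 * ((SbQ H b).card : ℝ) + δ / 2 * ((SbQ H b).card : ℝ) = δ * ((SbQ H b).card : ℝ) := by ring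
  linarith

open Classical in
/-- the series of most admissible constants converges to a positive number -/
theorem conv_linX : ∀ ε : ℝ, 0 < ε → ∃ M : ℝ, 64 ≤ M ∧ ∀ (z Y X K : ℕ) (H : Fin K → ℕ) (q : Fin K → Polynomial ℤ), M ≤ Real.log (Real.log X) →
    64 * Real.log (Real.log X) ≤ z → 64 * z * Real.log (Real.log X) ≤ Real.log X → 64 * (z : ℝ) ≤ Real.log Y → Y ≤ X → 16 * (K + 1) ≤ z → SysL z Y X H q → GG z q ≤ 1 / 8 →
    (((ATQ H q).filter fun s => ¬ (0 < singQ q s ∧ Tendsto (singPQ q s) atTop (nhds (singQ q s)))).card : ℝ) ≤ ε * (ATQ H q).card := by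
  intro ε hε
  obtain ⟨Y₀, hf⟩ := far_mostL (ε / 4) (by positivity)
  refine ⟨64 + Y₀, by have : (0 : ℝ) ≤ Y₀ := by positivity
                      linarith, ?_⟩
  have p2 : (0 : ℝ) ≤ Y₀ := by positivity
  intro z Y X K H q hX hz hzX hzY hYX hK hS hGG
  have hM64 : 64 ≤ 64 + (Y₀ : ℝ) := by linarith
  obtain ⟨hL0, hLM, hzM, hzL, hzl, hXe, hYe, hLe, hl64, hlL, hYXl, hzY64⟩ := elemX hM64 (le_refl (64 : ℝ)) hX hYX hz hzX hzY
  have hz0 : (0 : ℝ) < z := by linarith
  have hzl' : 64 * (z : ℝ) ≤ z * Real.log (Real.log X) := by nlinarith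
  have hzLY : 4096 * (z : ℝ) ≤ Real.log X := by linarith
  have hY2 : 2 ≤ Y := two_le_of_log hzY64 (by linarith)
  have hLYY : Real.log X ≤ X := by
    have := Real.add_one_le_exp (Real.log X)
    rw [← hXe] at this; linarith
  have hY₀ : Y₀ ≤ X := by
    have : (Y₀ : ℝ) ≤ X := by linarith
    exact_mod_cast this
  have hW40 : (PW z : ℝ) ^ 40 ≤ X := by
    calc (PW z : ℝ) ^ 40 ≤ (Real.exp (2 * z)) ^ 40 := by gcongr; exact PW_le Pool.Agent.Q111.SZ.t_PWB z
      _ = Real.exp (80 * z) := by rw [← Real.exp_nat_mul]; ring_nf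
      _ ≤ Real.exp (Real.log X) := Real.exp_le_exp.2 (by linarith)
      _ = X := hXe.symm
  have hU2 : (Uz z : ℝ) ^ 2 ≤ X := by
    calc (Uz z : ℝ) ^ 2 ≤ (Real.exp (12 * z)) ^ 2 := by gcongr; exact Uz_le_exp z
      _ = Real.exp (24 * z) := by rw [← Real.exp_nat_mul]; ring_nf
      _ ≤ Real.exp (Real.log X) := Real.exp_le_exp.2 (by linarith)
      _ = X := hXe.symm
  have h8 : 8 * (K + 1) * PW z ≤ X := by
    have h1 : ((8 * (K + 1) * PW z : ℕ) : ℝ) ≤ (X : ℝ) := by
      have hKz : ((16 * (K + 1) : ℕ) : ℝ) ≤ z := by exact_mod_cast hK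
      rw [Nat.cast_mul]
      push_cast at hKz ⊢
      calc (8 * ((K : ℝ) + 1)) * PW z ≤ Real.exp z * Real.exp (2 * z) := by
            gcongr
            · linarith [Real.add_one_le_exp (z : ℝ)]
            · exact PW_le Pool.Agent.Q111.SZ.t_PWB z
        _ = Real.exp (3 * z) := by rw [← Real.exp_add]; ring_nf
        _ ≤ Real.exp (Real.log X) := Real.exp_le_exp.2 (by linarith)
        _ = X := hXe.symm
    exact_mod_cast h1
  have h4Y : 4 * PW z ≤ Y := by
    have : 4 * (PW z : ℝ) ≤ Y := by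
      calc 4 * (PW z : ℝ) ≤ Real.exp z * Real.exp (2 * z) := by
            gcongr
            · linarith [Real.add_one_le_exp (z : ℝ)]
            · exact PW_le Pool.Agent.Q111.SZ.t_PWB z
        _ = Real.exp (3 * z) := by rw [← Real.exp_add]; ring_nf
        _ ≤ Real.exp (Real.log Y) := Real.exp_le_exp.2 (by linarith)
        _ = Y := hYe.symm
    exact_mod_cast this
  have hfb := hf z Y X K H q hY₀ hY2 hK hS (by linarith) hW40 hU2
  obtain ⟨E, hE⟩ : ∃ E : (Fin K → ℕ) → Prop, ∀ s, E s ↔ ¬ (AdmQ q s → 0 < singQ q s ∧ Tendsto (singPQ q s) atTop (nhds (singQ q s))) :=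
    ⟨_, fun _ => Iff.rfl⟩
  have ht := transL (E := E) (η := ε / 4) (by omega) hS h8 h4Y hYX hGG (by
    calc _ ≤ ∑ _b ∈ AdQ (PW z) q, ε / 4 := by
          apply sum_le_sum
          intro b _
          apply div_le_of_le_mul₀ (Nat.cast_nonneg _) (by positivity)
          refine le_trans ?_ (hfb b)
          have : ((SbQ H b).filter fun s => E s) ⊆
              ((SbQ H b).filter fun s => ¬ (AdmQ q s → 0 < singQ q s ∧ Tendsto (singPQ q s) atTop (nhds (singQ q s)) ∧
                |singQ q s - singPQ q s (w0 X)| ≤ ε / 4 * singPQ q s (w0 X))) := by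
            intro s hs
            rw [mem_filter] at hs ⊢
            rw [hE] at hs
            exact ⟨hs.1, fun h => hs.2 fun had => ⟨(h had).1, (h had).2.1⟩⟩
          exact_mod_cast card_le_card this
      _ = ε / 4 * (AdQ (PW z) q).card := by rw [sum_const, nsmul_eq_mul]; ring)
  have e : (ATQ H q).filter (fun s => ¬ (0 < singQ q s ∧ Tendsto (singPQ q s) atTop (nhds (singQ q s)))) =
      (ATQ H q).filter (fun s => E s) := by
    apply filter_congr
    intro s hs
    unfold ATQ at hs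
    rw [mem_filter] at hs
    have had := hs.2
    rw [hE]
    constructor
    · intro h h2
      exact h (h2 had)
    · intro h h2
      exact h fun _ => h2
  rw [e]
  refine ht.trans (le_of_eq ?_)
  ring

end Pool.Agent.Q145.LX
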