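import Pool.Agent.Q145.LT.Av
import Pool.Agent.Q145.LX.Nr

/-!
# Project LX: averages over the slopes (adapted from `Pool/Agent/Q145/LT/Av.lean`)
-/

set_option autoImplicit false
set_option linter.all false

namespace Pool.Agent.Q145.LX

open Finset Filter
open Pool.Agent.Q145.SZ Pool.Agent.Q145.LQ Pool.Agent.Q145.LE Pool.Agent.Q145.LT

open Classical in
/-- for most slopes few pairs are exceptional -/
theorem exq_x (prt : S_PRT) (tau : S_TAU) (a₀ : ℕ) : ∀ ε : ℝ, 0 < ε → ∃ M : ℝ, 64 ≤ M ∧ ∀ (z Y X K : ℕ) (T : Fin K → ℕ) (D : Fin K → Finset ℕ),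
    M ≤ Real.log (Real.log X) → 64 * Real.log (Real.log X) ≤ z → 64 * z * Real.log (Real.log X) ≤ Real.log X → 64 * (z : ℝ) ≤ Real.log Y → Y ≤ X → K ≤ z →
    (∀ i, X ≤ 4 * Y * T i ∧ 4 * Y * T i ≤ Uz z * X) →
    (∀ i, D i ⊆ Icc 1 (4 * Y * T i) ∧ ((D i).card : ℝ) ≤ ((4 * Y * T i : ℕ) : ℝ) / (PW z : ℝ) ^ (4 * a₀ + 40)) →
    ((((Fintype.piFinset fun i => Icc 1 (T i)).filter fun t => ¬ (((exq Y (qt (G0 Y T) t) D).card : ℝ) ≤ (Y : ℝ) ^ 2 / (PW z : ℝ) ^ (2 * (a₀ + 8)))).card : ℕ) : ℝ) ≤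
      ε * ∏ i, (T i : ℝ) := by
  intro ε hε
  obtain ⟨Ct, hCt, ht⟩ := tau
  obtain ⟨z₁, hz₁⟩ := Pool.Agent.Q111.SZ.t_PWB.2
  set M : ℝ := 64 + 64 * Ct + z₁ + 1 / ε with hM
  have p1 : 0 < 1 / ε := by positivity
  have p2 : (0 : ℝ) ≤ z₁ := by positivity
  have hM64 : 64 ≤ M := by linarith
  refine ⟨M, hM64, ?_⟩
  intro z Y X K T D hX hz hzX hzY hYX hK hsc hD
  obtain ⟨hL0, hLM, hzM, hzL, hzl, hXe, hYe, hLe, hl64, hlL, hYXl, hzY64⟩ := elemX hM64 (le_refl (64 : ℝ)) hX hYX hz hzX hzY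
  have hscale := fun (Z : ℕ) (h1 : X ≤ Z) (h2 : Z ≤ Uz z * X) => scaleE hl64 hz (by linarith) h1 h2
  set L := Real.log X with hL
  set l := Real.log L with hl
  have hz0 : (0 : ℝ) < z := by linarith
  have hY0 : (0 : ℝ) < Y := by rw [hYe]; exact Real.exp_pos _
  have hX0 : (0 : ℝ) < X := by rw [hXe]; exact Real.exp_pos _
  have hz1 : z₁ ≤ z := by
    have : (z₁ : ℝ) ≤ z := by linarith
    exact_mod_cast this
  have hW := hz₁ z hz1
  have hW1 := one_le_PW z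
  set W : ℝ := (PW z : ℝ) with hWd
  have hW0 : 0 < W := by linarith
  have hL1 : 1 ≤ L := by linarith
  have hLW : L ^ 32 ≤ W := by
    calc L ^ 32 = Real.exp (32 * l) := by
          rw [hLe, show (32 : ℝ) = ((32 : ℕ) : ℝ) by norm_num, Real.exp_nat_mul]
      _ ≤ Real.exp ((z : ℝ) / 2) := Real.exp_le_exp.2 (by linarith)
      _ ≤ W := hW
  have hL6 : L ^ 6 ≤ W := (pow_le_pow_right₀ hL1 (by norm_num)).trans hLW
  have hXL : L ≤ X := by
    have := Real.add_one_le_exp L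
    rw [← hXe] at this; linarith
  have hX3 : 3 ≤ X := by
    have : (3 : ℝ) ≤ X := by linarith
    exact_mod_cast this
  rcases Nat.eq_zero_or_pos K with hK0 | hK0
  · subst hK0
    have e : ((Fintype.piFinset fun i => Icc 1 (T i)).filter fun t => ¬ (((exq Y (qt (G0 Y T) t) D).card : ℝ) ≤ (Y : ℝ) ^ 2 / W ^ (2 * (a₀ + 8)))) = ∅ := by
      apply filter_eq_empty_iff.2
      intro t _
      rw [not_not]
      have : (exq Y (qt (G0 Y T) t) D) = ∅ := by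
        unfold exq
        apply filter_eq_empty_iff.2
        rintro x _ ⟨i, _⟩
        exact i.elim0
      rw [this]
      simp
      positivity
    rw [e]
    simp
    positivity
  have hKz : (K : ℝ) ≤ z := by exact_mod_cast hK
  have hK1 : (1 : ℝ) ≤ K := by exact_mod_cast hK0
  have hKp : (0 : ℝ) < K := by linarith
  have hzLr : (z : ℝ) ≤ L := by linarith
  have hCtL : 64 * Ct ≤ L := by linarith
  -- pairs for one coordinate
  set N : Fin K → ℕ → ℝ := fun i t => (((((Ioc Y (2 * Y)) ×ˢ (Ioc Y (2 * Y))).filter fun x : ℕ × ℕ =>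
    dst (vq (G0 Y T i + Polynomial.C (t : ℤ) * Polynomial.X) x.1) (vq (G0 Y T i + Polynomial.C (t : ℤ) * Polynomial.X) x.2) ∈ D i).card : ℕ) : ℝ) with hN
  have hN0 : ∀ i t, 0 ≤ N i t := fun i t => Nat.cast_nonneg _
  have hnn : ∀ i, ∀ t ∈ Icc 1 (T i), ∀ n ∈ Ioc Y (2 * Y), 0 ≤ (G0 Y T i + Polynomial.C (t : ℤ) * Polynomial.X).eval (n : ℤ) := by
    intro i t hti n hn
    unfold G0
    simp only [Polynomial.eval_add, Polynomial.eval_mul, Polynomial.eval_C, Polynomial.eval_X]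
    positivity
  have key : ∀ i, ∑ t ∈ Icc 1 (T i), N i t ≤ L ^ 5 * (Y : ℝ) ^ 2 * T i / W ^ (2 * a₀ + 20) := by
    intro i
    obtain ⟨s1, s2, s3, s4⟩ := hscale _ (hsc i).1 (hsc i).2
    have h0 : 0 ∉ D i := fun h => by
      have := (hD i).1 h
      rw [mem_Icc] at this
      omega
    have h1 := prt Y (T i) (G0 Y T i) (D i) (hnn i) h0
    have hDc := (hD i).2
    rw [show 4 * a₀ + 40 = 2 * (2 * a₀ + 20) by ring] at hDc
    have h2 := tau_small (L := L) hCt hW1 (hX3.trans (hsc i).1) ht (hD i).1 hDc s2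
    have hT0 : (0 : ℝ) ≤ T i := Nat.cast_nonneg _
    calc _ ≤ 4 * Y * ∑ h ∈ D i, (h.divisors.card : ℝ) := h1
      _ ≤ 4 * Y * (4 * Ct * L ^ 2 * ((4 * Y * T i : ℕ) : ℝ) / W ^ (2 * a₀ + 20)) := by gcongr
      _ = (64 * Ct) * L ^ 2 * (Y : ℝ) ^ 2 * T i / W ^ (2 * a₀ + 20) := by
        push_cast
        ring
      _ ≤ L * L ^ 2 * (Y : ℝ) ^ 2 * T i / W ^ (2 * a₀ + 20) := by gcongr
      _ = L ^ 3 * (Y : ℝ) ^ 2 * T i / W ^ (2 * a₀ + 20) := by ring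
      _ ≤ _ := by
        gcongr
        norm_num
  -- bad values of `t`
  set B : Fin K → Finset ℕ := fun i => (Icc 1 (T i)).filter fun t => (Y : ℝ) ^ 2 / (K * W ^ (2 * (a₀ + 8))) < N i t with hB
  have hBc : ∀ i, ((B i).card : ℝ) ≤ (1 / W ^ 3) * ((Icc 1 (T i)).card : ℝ) := by
    intro i
    have hp : 0 < (Y : ℝ) ^ 2 / (K * W ^ (2 * (a₀ + 8))) := by positivity
    have h1 : ((B i).card : ℝ) * ((Y : ℝ) ^ 2 / (K * W ^ (2 * (a₀ + 8)))) ≤ ∑ t ∈ Icc 1 (T i), N i t := by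
      calc ((B i).card : ℝ) * ((Y : ℝ) ^ 2 / (K * W ^ (2 * (a₀ + 8)))) = ∑ _t ∈ B i, (Y : ℝ) ^ 2 / (K * W ^ (2 * (a₀ + 8))) := by
            rw [sum_const, nsmul_eq_mul]
        _ ≤ ∑ t ∈ B i, N i t := sum_le_sum fun t ht => (mem_filter.1 ht).2.le
        _ ≤ ∑ t ∈ Icc 1 (T i), N i t := sum_le_sum_of_subset_of_nonneg (filter_subset _ _) fun t _ _ => hN0 i t
    have h2 := h1.trans (key i)
    rw [← le_div_iff₀ hp] at h2
    refine h2.trans ?_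
    rw [Nat.card_Icc, Nat.add_sub_cancel]
    have hT0 : (0 : ℝ) ≤ T i := Nat.cast_nonneg _
    calc L ^ 5 * (Y : ℝ) ^ 2 * T i / W ^ (2 * a₀ + 20) / ((Y : ℝ) ^ 2 / (K * W ^ (2 * (a₀ + 8))))
        = L ^ 5 * K * T i / W ^ 4 := by
          rw [show 2 * a₀ + 20 = 2 * (a₀ + 8) + 4 by ring, pow_add]
          field_simp
      _ ≤ L ^ 5 * L * T i / W ^ 4 := by gcongr; linarith
      _ = L ^ 6 * T i / W ^ 4 := by ring
      _ ≤ W * T i / W ^ 4 := by gcongr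
      _ = 1 / W ^ 3 * T i := by field_simp
  have hcb := card_bad (fun i => Icc 1 (T i)) B hBc
  have hsub : ((Fintype.piFinset fun i => Icc 1 (T i)).filter fun t => ¬ (((exq Y (qt (G0 Y T) t) D).card : ℝ) ≤ (Y : ℝ) ^ 2 / W ^ (2 * (a₀ + 8)))) ⊆
      ((Fintype.piFinset fun i => Icc 1 (T i)).filter fun t => ∃ i, t i ∈ B i) := by
    intro t htt
    rw [mem_filter] at htt ⊢
    refine ⟨htt.1, ?_⟩
    by_contra hcon
    push Not at hcon
    apply htt.2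
    have hmem := htt.1
    rw [Fintype.mem_piFinset] at hmem
    calc ((exq Y (qt (G0 Y T) t) D).card : ℝ) ≤ ∑ i, N i (t i) := exq_le Y (qt (G0 Y T) t) D
      _ ≤ ∑ _i : Fin K, (Y : ℝ) ^ 2 / (K * W ^ (2 * (a₀ + 8))) := by
        apply sum_le_sum
        intro i _
        by_contra h
        exact hcon i (mem_filter.2 ⟨hmem i, not_le.1 h⟩)
      _ = (Y : ℝ) ^ 2 / W ^ (2 * (a₀ + 8)) := by
        rw [sum_const, card_univ, Fintype.card_fin, nsmul_eq_mul]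
        field_simp
  have h5 : ((((Fintype.piFinset fun i => Icc 1 (T i)).filter fun t => ¬ (((exq Y (qt (G0 Y T) t) D).card : ℝ) ≤ (Y : ℝ) ^ 2 / W ^ (2 * (a₀ + 8)))).card : ℕ) : ℝ) ≤
      ((((Fintype.piFinset fun i => Icc 1 (T i)).filter fun t => ∃ i, t i ∈ B i).card : ℕ) : ℝ) := by exact_mod_cast card_le_card hsub
  have hcard : ((Fintype.piFinset fun i => Icc 1 (T i)).card : ℝ) = ∏ i, (T i : ℝ) := by
    rw [Fintype.card_piFinset]
    push_cast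
    refine prod_congr rfl fun i _ => ?_
    rw [Nat.card_Icc, Nat.add_sub_cancel]
  have h6 : (K : ℝ) * (1 / W ^ 3) ≤ ε := by
    have hLε : 1 / ε ≤ L := by linarith
    have h7 : 1 ≤ ε * L := by
      rw [div_le_iff₀ hε] at hLε
      linarith
    have h8 : (K : ℝ) ≤ L := by linarith
    have h9 : L ^ 2 ≤ W ^ 3 := by
      calc L ^ 2 ≤ L ^ 32 := pow_le_pow_right₀ hL1 (by norm_num)
        _ ≤ W := hLW
        _ = W ^ 1 := (pow_one W).symm
        _ ≤ W ^ 3 := pow_le_pow_right₀ hW1 (by norm_num)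
    rw [mul_one_div, div_le_iff₀ (by positivity)]
    calc (K : ℝ) ≤ L * 1 := by linarith
      _ ≤ L * (ε * L) := by gcongr
      _ = ε * L ^ 2 := by ring
      _ ≤ ε * W ^ 3 := by gcongr
  have h10 : (0 : ℝ) ≤ ∏ i, (T i : ℝ) := prod_nonneg fun i _ => Nat.cast_nonneg _
  rw [hcard] at hcb
  exact h5.trans (hcb.trans (mul_le_mul_of_nonneg_right h6 h10))

/-- the variance -/
theorem vbx : ∃ a₀ : ℕ, ∀ θ : ℝ, 0 < θ → θ ≤ 1 → VBX a₀ θ := by
  obtain ⟨C, hC, hl⟩ := Pool.Agent.Q38.LQ.t_LOCQ t_ABS 1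
  obtain ⟨l1, l2⟩ := Pool.Agent.Q177.LQ.t_LAWQ 1 C hC (t_CRTQ 1 C hC hl)
  exact var_boundX hC l1 l2 t_MOM1Q t_MOM2Q Pool.Agent.Q177.LQ.t_NOK t_ESQ t_SIEVE t_CCB
    Pool.Agent.Q111.SZ.t_PWB t_US t_PWC

end Pool.Agent.Q145.LX
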