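import Pool.Agent.Q145.LX.Jx
import Pool.Agent.Q145.LT.Va
import Pool.Agent.Q162.LS.BT

/-!
# Project LX: Brun-Titchmarsh for the means in classes
-/

set_option autoImplicit false

namespace Pool.Agent.Q145.LX

open Finset Filter
open Pool.Agent.Q145.SZ Pool.Agent.Q145.LQ Pool.Agent.Q145.LE Pool.Agent.Q145.LT

/-- sums of `wt` over a class -/
theorem sum_bt : ∃ (C : ℝ) (X₀ : ℕ), 0 < C ∧ ∀ (z H v : ℕ), X₀ ≤ H → PW z ^ 2 ≤ H → 2 * PW z ≤ H → v ∈ Ioc H (2 * H) → ∀ β : ZMod (PW z),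
    ∑ s ∈ cls H β, wt (v + s) ≤ C * (cls H β).card * vv (PW z) := by
  classical
  obtain ⟨C, X₀, hC, h⟩ := Pool.Agent.Q145.LS.t_BT
  refine ⟨6 * C, X₀, by positivity, ?_⟩
  intro z H v hH hW2 h2W hv β
  have hW0 : 0 < PW z := PW_pos z
  set r : ℕ := ((v : ZMod (PW z)) + β).val with hr
  have hr1 : ((r : ℕ) : ZMod (PW z)) = (v : ZMod (PW z)) + β := by
    rw [hr, ZMod.natCast_zmod_val]
  have h1 := h H (PW z) hH hW0 hW2 r
  have h2 := h (2 * H) (PW z) (by omega) hW0 (by omega) r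
  rw [mem_Ioc] at hv
  have h3 : ∑ s ∈ cls H β, wt (v + s) ≤ ∑ n ∈ (Ioc H (2 * H)).filter (fun n : ℕ => n ≡ r [MOD PW z]), wt n +
      ∑ n ∈ (Ioc (2 * H) (2 * (2 * H))).filter (fun n : ℕ => n ≡ r [MOD PW z]), wt n := by
    have hdis : Disjoint ((Ioc H (2 * H)).filter (fun n : ℕ => n ≡ r [MOD PW z])) ((Ioc (2 * H) (2 * (2 * H))).filter (fun n : ℕ => n ≡ r [MOD PW z])) := by
      rw [disjoint_left]
      intro a ha hb
      rw [mem_filter, mem_Ioc] at ha hb
      omega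
    rw [← sum_union hdis]
    have h4 : ∑ s ∈ cls H β, wt (v + s) = ∑ n ∈ (cls H β).image (fun s => v + s), wt n := by
      rw [sum_image]
      intro a _ b _ hab
      simpa using hab
    rw [h4]
    refine sum_le_sum_of_subset_of_nonneg ?_ fun n _ _ => wt_nonneg n
    intro n hn
    rw [mem_image] at hn
    obtain ⟨s, hs, rfl⟩ := hn
    unfold cls at hs
    rw [mem_filter, mem_Icc] at hs
    have h5 : v + s ≡ r [MOD PW z] := by
      rw [← ZMod.natCast_eq_natCast_iff, hr1]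
      push_cast
      rw [hs.2]
    rw [mem_union, mem_filter, mem_filter, mem_Ioc, mem_Ioc]
    by_cases h6 : v + s ≤ 2 * H
    · exact Or.inl ⟨⟨by omega, h6⟩, h5⟩
    · exact Or.inr ⟨⟨by omega, by omega⟩, h5⟩
  refine h3.trans ?_
  have hc := (abs_le.1 (Pool.Agent.Q261.SZ.card_cls H β)).1
  have hWr : (0 : ℝ) < PW z := by exact_mod_cast hW0
  have hφ : (0 : ℝ) < Nat.totient (PW z) := by exact_mod_cast Nat.totient_pos.2 hW0
  have hx : 2 ≤ (H : ℝ) / PW z := by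
    rw [le_div_iff₀ hWr]
    exact_mod_cast h2W
  have hc2 : (H : ℝ) / PW z ≤ 2 * (cls H β).card := by linarith
  have e : (H : ℝ) / Nat.totient (PW z) = (H : ℝ) / PW z * vv (PW z) := by
    unfold vv
    field_simp
  push_cast at h2
  calc _ ≤ C * H / Nat.totient (PW z) + C * (2 * H) / Nat.totient (PW z) := add_le_add h1 h2
    _ = 3 * C * ((H : ℝ) / Nat.totient (PW z)) := by ring
    _ = 3 * C * ((H : ℝ) / PW z * vv (PW z)) := by rw [e]
    _ ≤ 3 * C * (2 * (cls H β).card * vv (PW z)) := by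
        have := (vv_pos z).le
        gcongr
    _ = _ := by ring

/-- the means of products -/
theorem b2_bt : ∃ (C : ℝ) (X₀ : ℕ), 0 < C ∧ ∀ (z H v w : ℕ), X₀ ≤ H → PW z ^ 2 ≤ H → 2 * PW z ≤ H → 3 ≤ H → v ∈ Ioc H (2 * H) → w ∈ Ioc H (2 * H) → ∀ β : ZMod (PW z),
    B2 H v w β ≤ C * Real.log H * vv (PW z) := by
  obtain ⟨C, X₀, hC, h⟩ := sum_bt
  refine ⟨2 * C, X₀, by positivity, ?_⟩
  intro z H v w hH hW2 h2W hH3 hv hw β
  have h1 := h z H v hH hW2 h2W hv β
  have hL : 0 ≤ Real.log H := Real.log_natCast_nonneg H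
  have hvv := (vv_pos z).le
  unfold B2
  apply div_le_of_le_mul₀ (Nat.cast_nonneg _) (by positivity)
  calc ∑ s ∈ cls H β, wt (v + s) * wt (w + s) ≤ ∑ s ∈ cls H β, wt (v + s) * (2 * Real.log H) := by
        refine sum_le_sum fun s hs => ?_
        unfold cls at hs
        rw [mem_filter, mem_Icc] at hs
        rw [mem_Ioc] at hw
        exact mul_le_mul_of_nonneg_left (wt_le hH3 (u := w + s) (by omega)) (wt_nonneg _)
    _ = (2 * Real.log H) * ∑ s ∈ cls H β, wt (v + s) := by rw [← sum_mul, mul_comm]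
    _ ≤ (2 * Real.log H) * (C * (cls H β).card * vv (PW z)) := mul_le_mul_of_nonneg_left h1 (by positivity)
    _ = _ := by ring

end Pool.Agent.Q145.LX
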