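import Pool.Agent.Q145.LT.Hs
import Pool.Agent.Q145.LS.Sq2

/-!
# Project LX (helper145): linear systems in the true range. Part 1: the average of the pair singular series, for `Y` a power of `PW z`
-/

set_option autoImplicit false

namespace Pool.Agent.Q145.LX

open Finset Filter
open Pool.Agent.Q145.SZ Pool.Agent.Q145.LQ Pool.Agent.Q145.LE Pool.Agent.Q145.LT Pool.Agent.Q261.SZ Pool.Agent.Q53.LQ.JPOLY Pool.Agent.Q53.LQ.HSQ

/-- the main inequality before the estimates: only divisors at most `Y` occur -/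
theorem main_sumX (z Y M n : ℕ) (hn : n ∈ Ioc Y (2 * Y)) (c : ZMod (PW z)) :
    ∑ m ∈ (Ioc Y (2 * Y)).filter (fun m : ℕ => (m : ZMod (PW z)) = c ∧ n ≠ m), JP z (dst n m) ^ M ≤
      (Y : ℝ) / PW z * ∏ p ∈ (Ioc z Y).filter Nat.Prime, (1 + gj M p / p) +
        √Y * ∏ p ∈ (Ioc z Y).filter Nat.Prime, (1 + gj M p / √p) := by
  classical
  set P := (Ioc z Y).filter Nat.Prime with hP
  have hPm : ∀ p ∈ P, p.Prime ∧ z < p := by
    intro p hp
    rw [hP, mem_filter, mem_Ioc] at hp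
    exact ⟨hp.2, hp.1.1⟩
  set S := (Ioc Y (2 * Y)).filter (fun m : ℕ => (m : ZMod (PW z)) = c ∧ n ≠ m) with hS
  have hd0 : ∀ m ∈ S, dst n m ≠ 0 ∧ dst n m ≤ Y := by
    intro m hm
    rw [hS, mem_filter, mem_Ioc] at hm
    rw [mem_Ioc] at hn
    have h := hm.2.2
    unfold dst
    omega
  have h1 : ∑ m ∈ S, JP z (dst n m) ^ M =
      ∑ m ∈ S, ∑ E ∈ P.powerset, if (∏ p ∈ E, p) ∣ dst n m then ∏ p ∈ E, gj M p else 0 := by
    refine sum_congr rfl fun m hm => ?_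
    exact JP_pow z Y M _ (hd0 m hm).1 (hd0 m hm).2
  rw [h1, sum_comm, prod_one_add, prod_one_add, mul_sum, mul_sum, ← sum_add_distrib]
  refine sum_le_sum fun E hE => ?_
  have hEp : ∀ p ∈ E, p.Prime ∧ z < p := fun p hp => hPm p (mem_powerset.1 hE hp)
  have hG0 : 0 ≤ ∏ p ∈ E, gj M p := prod_nonneg fun p hp => gj_nonneg (hEp p hp).1.two_le
  have he0 : 0 < ∏ p ∈ E, p := prod_pos fun p hp => (hEp p hp).1.pos
  have hW0 : 0 < PW z := Nat.pos_of_ne_zero (NeZero.ne (PW z))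
  have hWe : (PW z).Coprime (∏ p ∈ E, p) := Nat.Coprime.prod_right fun p hp => coprime_PW (hEp p hp).1 (hEp p hp).2
  have h2 : ∑ m ∈ S, (if (∏ p ∈ E, p) ∣ dst n m then ∏ p ∈ E, gj M p else 0) =
      ((S.filter fun m : ℕ => (∏ p ∈ E, p) ∣ dst n m).card : ℝ) * ∏ p ∈ E, gj M p := by
    rw [← sum_filter, sum_const, nsmul_eq_mul]
  rw [h2]
  have hpr : 0 ≤ ∏ p ∈ E, gj M p / √(p : ℝ) := prod_nonneg fun p hp => div_nonneg (gj_nonneg (hEp p hp).1.two_le) (Real.sqrt_nonneg _)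
  have hpp : 0 ≤ ∏ p ∈ E, gj M p / (p : ℝ) := prod_nonneg fun p hp => div_nonneg (gj_nonneg (hEp p hp).1.two_le) (Nat.cast_nonneg _)
  by_cases hEY : (∏ p ∈ E, p) ≤ Y
  · have h3 : ((S.filter fun m : ℕ => (∏ p ∈ E, p) ∣ dst n m).card : ℝ) ≤ (Y : ℝ) / (PW z * ∏ p ∈ E, p : ℕ) + 1 := by
      refine cnt_le Y (PW z * ∏ p ∈ E, p) (Nat.mul_pos hW0 he0) _ ((filter_subset _ _).trans (filter_subset _ _)) fun a ha b hb => ?_
      rw [mem_filter, hS, mem_filter] at ha hb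
      rw [← Nat.modEq_and_modEq_iff_modEq_mul hWe]
      refine ⟨?_, ?_⟩
      · rw [← ZMod.natCast_eq_natCast_iff, ha.1.2.1, hb.1.2.1]
      · rw [Nat.modEq_iff_dvd]
        have e1 := Int.natCast_dvd.2 (by rw [← dst_nat]; exact ha.2 : (∏ p ∈ E, p) ∣ ((a : ℤ) - n).natAbs)
        have e2 := Int.natCast_dvd.2 (by rw [← dst_nat]; exact hb.2 : (∏ p ∈ E, p) ∣ ((b : ℤ) - n).natAbs)
        have e3 := dvd_sub e2 e1
        have e4 : (b : ℤ) - n - ((a : ℤ) - n) = b - a := by ring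
        rw [e4] at e3
        exact e3
    have her : (0 : ℝ) < ((∏ p ∈ E, p : ℕ) : ℝ) := by exact_mod_cast he0
    have hWr : (0 : ℝ) < PW z := by exact_mod_cast hW0
    have h4 : ∏ p ∈ E, gj M p / (p : ℝ) = (∏ p ∈ E, gj M p) / ((∏ p ∈ E, p : ℕ) : ℝ) := by
      rw [prod_div_distrib]
      push_cast
      rfl
    have hs0 : 0 < ∏ p ∈ E, √(p : ℝ) := prod_pos fun p hp => Real.sqrt_pos.2 (by exact_mod_cast (hEp p hp).1.pos)
    have hs1 : ∏ p ∈ E, √(p : ℝ) ≤ √Y := by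
      apply Real.le_sqrt_of_sq_le
      rw [← prod_pow]
      have : ∏ p ∈ E, √(p : ℝ) ^ 2 = ((∏ p ∈ E, p : ℕ) : ℝ) := by
        push_cast
        exact prod_congr rfl fun p _ => Real.sq_sqrt (Nat.cast_nonneg _)
      rw [this]
      exact_mod_cast hEY
    have h5 : ∏ p ∈ E, gj M p ≤ √Y * ∏ p ∈ E, gj M p / √(p : ℝ) := by
      rw [prod_div_distrib]
      calc ∏ p ∈ E, gj M p = (∏ p ∈ E, √(p : ℝ)) * ((∏ p ∈ E, gj M p) / ∏ p ∈ E, √(p : ℝ)) := by field_simp
        _ ≤ _ := mul_le_mul_of_nonneg_right hs1 (div_nonneg hG0 hs0.le)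
    rw [h4]
    calc _ ≤ ((Y : ℝ) / (PW z * ∏ p ∈ E, p : ℕ) + 1) * ∏ p ∈ E, gj M p := mul_le_mul_of_nonneg_right h3 hG0
      _ = (Y : ℝ) / PW z * ((∏ p ∈ E, gj M p) / ((∏ p ∈ E, p : ℕ) : ℝ)) + ∏ p ∈ E, gj M p := by
        push_cast at her ⊢
        field_simp
      _ ≤ _ := add_le_add le_rfl h5
  · have h3 : S.filter (fun m : ℕ => (∏ p ∈ E, p) ∣ dst n m) = ∅ := by
      apply filter_eq_empty_iff.2
      intro m hm hd
      exact hEY ((Nat.le_of_dvd (Nat.pos_of_ne_zero (hd0 m hm).1) hd).trans (hd0 m hm).2)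
    rw [h3, card_empty, Nat.cast_zero, zero_mul]
    positivity

theorem second_leX {C₁ : ℝ} (z Z M : ℕ) (hz : 2 ≤ z) (hM : 8 * M ≤ z)
    (hSQ : ∑ p ∈ (Ioc z Z).filter Nat.Prime, 1 / ((p : ℝ) * √p) ≤ C₁ / √z) :
    ∏ p ∈ (Ioc z Z).filter Nat.Prime, (1 + gj M p / √p) ≤ Real.exp (C₁ * √z) := by
  have hPm : ∀ p ∈ (Ioc z Z).filter Nat.Prime, 2 ≤ p ∧ 8 * M ≤ p := by
    intro p hp
    rw [mem_filter, mem_Ioc] at hp
    omega
  have hz0 : (0 : ℝ) < z := by exact_mod_cast (show 0 < z by omega)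
  have hs0 : 0 < √(z : ℝ) := Real.sqrt_pos.2 hz0
  have h1 : ∏ p ∈ (Ioc z Z).filter Nat.Prime, (1 + gj M p / √p) ≤
      ∏ p ∈ (Ioc z Z).filter Nat.Prime, Real.exp (4 * M * (1 / ((p : ℝ) * √p))) := by
    refine prod_le_prod (fun p hp => ?_) fun p hp => ?_
    · have := gj_nonneg (M := M) (hPm p hp).1
      positivity
    · have h2 := gj_le (hPm p hp).1 (hPm p hp).2
      have hp0 : (0 : ℝ) < p := by exact_mod_cast (show 0 < p by have := (hPm p hp).1; omega)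
      have hps : 0 < √(p : ℝ) := Real.sqrt_pos.2 hp0
      have h3 : gj M p / √p ≤ 4 * M * (1 / ((p : ℝ) * √p)) := by
        calc gj M p / √p ≤ (4 * M / p) / √p := by gcongr
          _ = _ := by field_simp
      have := Real.add_one_le_exp (4 * (M : ℝ) * (1 / ((p : ℝ) * √p)))
      linarith
  refine h1.trans ?_
  rw [← Real.exp_sum, ← mul_sum]
  refine Real.exp_le_exp.2 ?_
  have hMr : 4 * (M : ℝ) ≤ z := by
    have : 8 * (M : ℝ) ≤ z := by exact_mod_cast hM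
    linarith
  have hC1 : 0 ≤ C₁ / √(z : ℝ) := le_trans (sum_nonneg fun _ _ => by positivity) hSQ
  calc 4 * (M : ℝ) * ∑ p ∈ (Ioc z Z).filter Nat.Prime, 1 / ((p : ℝ) * √p) ≤
        4 * (M : ℝ) * (C₁ / √z) := by gcongr
    _ ≤ z * (C₁ / √z) := by gcongr
    _ = C₁ * √z := by
      rw [mul_div_assoc', div_eq_iff hs0.ne', mul_assoc, Real.mul_self_sqrt hz0.le, mul_comm]

/-- the moments of `JP` along the differences -/
def JX : Prop := ∃ (C z₀ : ℕ), 1 ≤ C ∧ ∀ (z Y M n : ℕ), z₀ ≤ z → 8 * M ≤ z → (PW z : ℝ) ^ 4 ≤ Y → n ∈ Ioc Y (2 * Y) → ∀ c : ZMod (PW z),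
  ∑ m ∈ (Ioc Y (2 * Y)).filter (fun m : ℕ => (m : ZMod (PW z)) = c ∧ n ≠ m), JP z (dst n m) ^ M ≤
    ((Y : ℝ) / PW z) * (1 + C / Real.log z)

theorem jx : JX := by
  obtain ⟨C₁, hC₁, hSQ⟩ := Pool.Agent.Q145.LS.t_SQ2
  have hev : ∀ᶠ z : ℕ in atTop, Real.exp ((z : ℝ) / 2) ≤ PW z ∧ 60 ≤ z ∧ 1 ≤ Real.log z ∧
      C₁ ≤ Real.log z ∧ 4 * C₁ ≤ √(z : ℝ) := by
    have h1 : Tendsto (fun z : ℕ => Real.log z) atTop atTop :=
      Real.tendsto_log_atTop.comp tendsto_natCast_atTop_atTop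
    have h2 : Tendsto (fun z : ℕ => √(z : ℝ)) atTop atTop :=
      Real.tendsto_sqrt_atTop.comp tendsto_natCast_atTop_atTop
    filter_upwards [PW_large, eventually_ge_atTop 60, h1.eventually_ge_atTop 1,
      h1.eventually_ge_atTop C₁, h2.eventually_ge_atTop (4 * C₁)] with z a b c d e
    exact ⟨a, b, c, d, e⟩
  obtain ⟨z₀, hz₀⟩ := hev.exists_forall_of_atTop
  obtain ⟨C, hC⟩ := exists_nat_ge (2 * C₁ + 1)
  refine ⟨C, z₀, by
    have : (1 : ℝ) ≤ C := by linarith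
    exact_mod_cast this, ?_⟩
  intro z Y M n hz hM hY hn c
  obtain ⟨hW, hz60, hlog1, hlogC, hsq⟩ := hz₀ z hz
  have hz60r : (60 : ℝ) ≤ z := by exact_mod_cast hz60
  have hz0 : (0 : ℝ) < z := by linarith
  have hW1 : (1 : ℝ) ≤ PW z := by exact_mod_cast Nat.pos_of_ne_zero (NeZero.ne (PW z))
  have hW0 : (0 : ℝ) < PW z := by linarith
  have hlog0 : 0 < Real.log z := by linarith
  have hY0 : (0 : ℝ) < Y := lt_of_lt_of_le (by positivity) hY
  have hA1 := first_le z Y M 1 (by omega) hM (hSQ z Y (by omega)).1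
  have hA2 := second_leX z Y M (by omega) hM (hSQ z Y (by omega)).2
  simp only [Nat.cast_one, one_mul] at hA1
  have hexp : Real.exp (C₁ / Real.log z) ≤ 1 + 2 * (C₁ / Real.log z) := by
    have h1 : 0 ≤ C₁ / Real.log z := by positivity
    have h2 : C₁ / Real.log z ≤ 1 := by
      rw [div_le_one hlog0]
      exact hlogC
    have := exp_quad h1 h2
    nlinarith
  -- the second term
  have hkey : Real.exp (C₁ * √(z : ℝ)) * Real.log z ≤ PW z := by
    have h1 : C₁ * √(z : ℝ) ≤ z / 4 := by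
      have h2 := Real.mul_self_sqrt hz0.le
      have h3 := Real.sqrt_nonneg (z : ℝ)
      nlinarith
    have h2 : Real.log z ≤ Real.exp ((z : ℝ) / 4) := by
      have h5 : Real.log z = Real.log (z / 4) + Real.log 4 := by
        rw [← Real.log_mul (by positivity) (by norm_num)]
        congr 1
        ring
      have h6 := Real.log_le_sub_one_of_pos (show (0 : ℝ) < z / 4 by linarith)
      have h7 : Real.log 4 ≤ 2 := by
        rw [Real.log_le_iff_le_exp (by norm_num)]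
        have h9 := Real.exp_one_gt_d9
        have e : Real.exp 2 = Real.exp 1 * Real.exp 1 := by rw [← Real.exp_add]; norm_num
        rw [e]
        nlinarith
      have h8 := Real.add_one_le_exp ((z : ℝ) / 4)
      linarith
    calc Real.exp (C₁ * √(z : ℝ)) * Real.log z ≤ Real.exp (z / 4) * Real.exp (z / 4) := by
          gcongr
      _ = Real.exp (z / 2) := by rw [← Real.exp_add]; ring_nf
      _ ≤ PW z := hW
  set T : ℝ := (Y : ℝ) / PW z with hT
  have hT0 : 0 < T := by positivity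
  have hsY : (PW z : ℝ) ^ 2 ≤ √Y := by
    apply Real.le_sqrt_of_sq_le
    rw [← pow_mul]
    exact hY
  have hTL : √Y * Real.exp (C₁ * √(z : ℝ)) ≤ T * (1 / Real.log z) := by
    rw [hT, mul_one_div, div_div, le_div_iff₀ (by positivity)]
    have hsq0 := Real.sqrt_nonneg (Y : ℝ)
    calc √Y * Real.exp (C₁ * √(z : ℝ)) * ((PW z : ℝ) * Real.log z) = √Y * ((PW z : ℝ) * (Real.exp (C₁ * √(z : ℝ)) * Real.log z)) := by ring
      _ ≤ √Y * ((PW z : ℝ) * PW z) := by gcongr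
      _ = √Y * (PW z : ℝ) ^ 2 := by ring
      _ ≤ √Y * √Y := by gcongr
      _ = Y := Real.mul_self_sqrt hY0.le
  refine (main_sumX z Y M n hn c).trans ?_
  rw [← hT]
  have h1 := mul_le_mul_of_nonneg_left (hA1.trans hexp) hT0.le
  have h3 := mul_le_mul_of_nonneg_left hA2 (Real.sqrt_nonneg (Y : ℝ))
  have h2 : T * (1 + 2 * (C₁ / Real.log z)) + T * (1 / Real.log z) ≤ T * (1 + C / Real.log z) := by
    have e : T * (1 + 2 * (C₁ / Real.log z)) + T * (1 / Real.log z) =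
      T * (1 + (2 * C₁ + 1) / Real.log z) := by ring
    rw [e]
    gcongr
  linarith

open Classical in
/-- the conclusion -/
def HSQx : Prop := ∃ (C z₀ : ℕ), 1 ≤ C ∧ ∀ (z Y X K r : ℕ) (H : Fin K → ℕ) (q : Fin K → Polynomial ℤ), z₀ ≤ z → r ≤ 2 → 32 * K ≤ z → SysL z Y X H q →
  (PW z : ℝ) ^ 4 ≤ Y → ∀ c e : ZMod (PW z),
  ∑ n ∈ (Ioc Y (2 * Y)).filter (fun n : ℕ => (n : ZMod (PW z)) = c),
    ∑ m ∈ (Ioc Y (2 * Y)).filter (fun m : ℕ => (m : ZMod (PW z)) = e ∧ okp q n m), ∏ i, SP z (H i) (dst (vq (q i) n) (vq (q i) m)) ^ r ≤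
      ((Y : ℝ) / PW z) ^ 2 * (1 + C / Real.log z) * Real.exp (4 * GG z q)

theorem hsqX : HSQx := by
  classical
  obtain ⟨C, z₁, hC1, hJ⟩ := jx
  have hev : ∀ᶠ z : ℕ in atTop, Real.exp ((z : ℝ) / 2) ≤ PW z ∧ 60 ≤ z ∧ 1 ≤ Real.log z ∧ z₁ ≤ z := by
    have h1 : Tendsto (fun z : ℕ => Real.log z) atTop atTop :=
      Real.tendsto_log_atTop.comp tendsto_natCast_atTop_atTop
    filter_upwards [PW_large, eventually_ge_atTop 60, h1.eventually_ge_atTop 1,
      eventually_ge_atTop z₁] with z a b c d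
    exact ⟨a, b, c, d⟩
  obtain ⟨z₀, hz₀⟩ := hev.exists_forall_of_atTop
  refine ⟨4 * C, z₀, by omega, ?_⟩
  intro z Y X K r H q hz hr hK hS hY c e
  obtain ⟨hW, hz60, hlog1, hz1⟩ := hz₀ z hz
  have hz60r : (60 : ℝ) ≤ z := by exact_mod_cast hz60
  have hW0 : (0 : ℝ) < PW z := by exact_mod_cast Nat.pos_of_ne_zero (NeZero.ne (PW z))
  have hW1 : (1 : ℝ) ≤ PW z := by exact_mod_cast Nat.pos_of_ne_zero (NeZero.ne (PW z))
  have hlog0 : 0 < Real.log z := by linarith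
  have hWY : (PW z : ℝ) ^ 2 ≤ Y := (pow_le_pow_right₀ hW1 (by norm_num)).trans hY
  set T : ℝ := (Y : ℝ) / PW z with hT
  have hY0r : (0 : ℝ) < Y := lt_of_lt_of_le (by positivity) hY
  have hT0 : 0 < T := by positivity
  set E : ℝ := Real.exp (4 * GG z q) with hE
  have hE0 : 0 < E := Real.exp_pos _
  -- the inner sum
  have hinner : ∀ n ∈ Ioc Y (2 * Y),
      ∑ m ∈ (Ioc Y (2 * Y)).filter (fun m : ℕ => (m : ZMod (PW z)) = e ∧ okp q n m),
        ∏ i, SP z (H i) (dst (vq (q i) n) (vq (q i) m)) ^ r ≤ T * (1 + C / Real.log z) * E := by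
    intro n hn
    have hM2 : r * K ≤ 2 * K := Nat.mul_le_mul_right K hr
    have hX1 := hJ z Y (r * K) n hz1 (by omega) hY hn e
    set F := (Ioc Y (2 * Y)).filter (fun m : ℕ => (m : ZMod (PW z)) = e ∧ okp q n m) with hF
    have hFX : F ⊆ (Ioc Y (2 * Y)).filter (fun m : ℕ => (m : ZMod (PW z)) = e ∧ n ≠ m) := by
      intro m hm
      rw [hF, mem_filter] at hm
      rw [mem_filter]
      exact ⟨hm.1, hm.2.1, hm.2.2.1⟩
    have hdst : ∀ i, ∀ m ∈ Ioc Y (2 * Y), dst (vq (q i) n) (vq (q i) m) = la (q i) * dst n m := by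
      intro i m hm
      unfold vq
      rw [dst_toNat (hS.nonneg i hn) (hS.nonneg i hm), eval_lin (hS.deg i), eval_lin (hS.deg i), dst_nat]
      unfold la
      rw [lc_lin (hS.deg i), ← Int.natAbs_mul]
      congr 1
      ring
    have hpt : ∀ m ∈ F, ∏ i, SP z (H i) (dst (vq (q i) n) (vq (q i) m)) ^ r ≤ JP z (dst n m) ^ (r * K) * E := by
      intro m hm
      have hm1 := hm
      rw [hF, mem_filter] at hm1
      have hD : dst n m ≠ 0 := by
        have := hm1.2.2.1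
        unfold dst
        omega
      have hz2 : 2 ≤ z := by omega
      calc ∏ i, SP z (H i) (dst (vq (q i) n) (vq (q i) m)) ^ r ≤ ∏ i, (JP z (la (q i)) * JP z (dst n m)) ^ r := by
            refine prod_le_prod (fun i _ => pow_nonneg (SP_nonneg hz2) r) fun i _ => ?_
            rw [hdst i m hm1.1]
            exact pow_le_pow_left₀ (SP_nonneg hz2)
              ((SP_le_JP hz2 (Nat.mul_ne_zero (la_pos (hS.deg i)).ne' hD)).trans (JP_mul_le (la_pos (hS.deg i)).ne' hD)) r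
        _ = JP z (dst n m) ^ (r * K) * ∏ i, JP z (la (q i)) ^ r := by
            simp only [mul_pow]
            rw [prod_mul_distrib, prod_const, card_univ, Fintype.card_fin, ← pow_mul, mul_comm]
        _ ≤ JP z (dst n m) ^ (r * K) * E := by
            refine mul_le_mul_of_nonneg_left (prod_JP_le z r hr q) ?_
            exact pow_nonneg (zero_le_one.trans (JP_one_le _ _)) _
    refine (sum_le_sum hpt).trans ?_
    rw [← sum_mul]
    refine mul_le_mul_of_nonneg_right ?_ hE0.le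
    have hnn : ∀ h : ℕ, 0 ≤ JP z h ^ (r * K) := fun h => pow_nonneg (zero_le_one.trans (JP_one_le z h)) _
    exact (sum_le_sum_of_subset_of_nonneg (f := fun m : ℕ => JP z (dst n m) ^ (r * K)) hFX
      fun m _ _ => hnn _).trans hX1
  -- the outer sum
  have hcard : (((Ioc Y (2 * Y)).filter (fun n : ℕ => (n : ZMod (PW z)) = c)).card : ℝ) ≤ T + 1 := by
    refine cnt_le Y (PW z) (Nat.pos_of_ne_zero (NeZero.ne (PW z))) _ (filter_subset _ _) fun a ha b hb => ?_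
    rw [mem_filter] at ha hb
    rw [← ZMod.natCast_eq_natCast_iff, ha.2, hb.2]
  refine (sum_le_card_nsmul _ _ _ fun n hn => hinner n (mem_filter.1 hn).1).trans ?_
  rw [nsmul_eq_mul]
  have hC0 : (0 : ℝ) ≤ C := Nat.cast_nonneg _
  have hB0 : 0 ≤ T * (1 + C / Real.log z) := by positivity
  refine (mul_le_mul_of_nonneg_right hcard (mul_nonneg hB0 hE0.le)).trans ?_
  rw [← mul_assoc]
  refine mul_le_mul_of_nonneg_right ?_ hE0.le
  have h1 : Real.log z ≤ T := by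
    have h2 : (PW z : ℝ) ≤ T := by
      rw [hT, le_div_iff₀ hW0]
      calc (PW z : ℝ) * PW z = (PW z : ℝ) ^ 2 := by ring
        _ ≤ Y := hWY
    have h3 : Real.log z ≤ PW z := by
      have h3 := Real.add_one_le_exp ((z : ℝ) / 2)
      have h4 : Real.log z ≤ (z : ℝ) / 2 + 1 := by
        have h5 : Real.log z = Real.log (z / 2) + Real.log 2 := by
          rw [← Real.log_mul (by positivity) two_ne_zero]
          congr 1
          ring
        have h6 := Real.log_le_sub_one_of_pos (show (0 : ℝ) < z / 2 by linarith)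
        have h7 := Real.log_two_lt_d9
        linarith
      linarith
    linarith
  set u : ℝ := 1 / Real.log z with hu
  have hu0 : 0 < u := by positivity
  have hu1 : u ≤ 1 := by
    rw [hu, div_le_one hlog0]
    exact hlog1
  have hTu : 1 ≤ T * u := by
    rw [hu, mul_one_div, le_div_iff₀ hlog0, one_mul]
    exact h1
  have hC1r : (1 : ℝ) ≤ C := by exact_mod_cast hC1
  have hCu : (C : ℝ) / Real.log z = C * u := by rw [hu]; ring
  have hCu4 : ((4 * C : ℕ) : ℝ) / Real.log z = 4 * C * u := by rw [hu]; push_cast; ring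
  rw [hCu, hCu4]
  calc (T + 1) * (T * (1 + C * u)) ≤ (T + T * u) * (T * (1 + C * u)) := by gcongr
    _ = T ^ 2 * (1 + (1 + C) * u + C * (u * u)) := by ring
    _ ≤ T ^ 2 * (1 + (1 + C) * u + C * (u * 1)) := by gcongr
    _ ≤ T ^ 2 * (1 + 4 * C * u) := by
        refine mul_le_mul_of_nonneg_left ?_ (by positivity)
        have h9 : u ≤ C * u := le_mul_of_one_le_left hu0.le hC1r
        have h10 : 0 ≤ C * u := mul_nonneg hC0 hu0.le
        linarith

end Pool.Agent.Q145.LX
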