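import Pool.Agent.Q145.LX.Low

/-!
# Project LX: below the threshold almost all systems have no prime point (2)
-/

set_option autoImplicit false
set_option linter.all false

namespace Pool.Agent.Q145.LX

open Finset Filter
open Pool.Agent.Q145.SZ Pool.Agent.Q145.LQ Pool.Agent.Q145.LE Pool.Agent.Q145.LT

/-- a number has few prime factors -/
lemma two_pow_omega_le {n : ℕ} (hn : n ≠ 0) : 2 ^ n.primeFactors.card ≤ n := by
  calc 2 ^ n.primeFactors.card = ∏ _p ∈ n.primeFactors, 2 := by rw [prod_const]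
    _ ≤ ∏ p ∈ n.primeFactors, p := prod_le_prod' fun p hp => (Nat.prime_of_mem_primeFactors hp).two_le
    _ ≤ n := Nat.le_of_dvd (Nat.pos_of_ne_zero hn) (Nat.prod_primeFactors_dvd n)

open Classical in
/-- the core: below the threshold -/
theorem low_core {C : ℝ} {X₀ : ℕ} (hC : 0 < C) (hmean : ∀ (z Y X K : ℕ) (H : Fin K → ℕ) (q : Fin K → Polynomial ℤ), X₀ ≤ X → 3 ≤ X → PW z ^ 2 ≤ X → 2 * PW z ≤ X → SysL z Y X H q →
    ∀ b : Fin K → ZMod (PW z), ∑ s ∈ SbQ H b, (cntQ Y q s : ℝ) ≤ (Y : ℝ) * (C * vv (PW z) / Real.log X) ^ K * (SbQ H b).card)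
    {Cv : ℝ} (hCv : 0 < Cv) (hvv : ∀ z : ℕ, 2 ≤ z → vv (PW z) ≤ Cv * Real.log z ∧ C18 (PW z) ≤ Cv * Real.log z ^ 18)
    {θ ε : ℝ} (hθ : 0 < θ) (hε : 0 < ε) {z Y X K : ℕ} {H : Fin K → ℕ} {q : Fin K → Polynomial ℤ} (hX₀ : X₀ ≤ X)
    (hL : 64 ≤ Real.log X) (hz2 : 2 ≤ z) (hzL : 64 * (z : ℝ) ≤ Real.log X) (hK1 : 1 ≤ K) (hKz : 64 * (K + 1) ≤ z) (hY1 : 1 ≤ Y)
    (hl0 : 0 < Real.log (Real.log X))
    (hY : Real.log Y ≤ (1 - θ) * (K * Real.log (Real.log X)))
    (hl1 : C * (Cv * Real.log (Real.log X)) ≤ Real.exp (θ / 2 * Real.log (Real.log X)))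
    (hl2 : Real.exp (-(θ / 2 * Real.log (Real.log X))) ≤ ε / 4)
    (hS : SysL z Y X H q) (hla : ∀ i, la (q i) ≤ H i) (hG : GG z q ≤ 1 / 8) :
    (((ATQ H q).filter fun s => cntQ Y q s ≠ 0).card : ℝ) ≤ ε * (ATQ H q).card := by
  set L := Real.log X with hLdef
  set l := Real.log L with hldef
  have hL0 : 0 < L := by linarith
  have hX0 : (0 : ℝ) < X := by
    rcases Nat.eq_zero_or_pos X with h | h
    · rw [h] at hLdef
      simp at hLdef
      linarith
    · exact_mod_cast h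
  have hXe : (X : ℝ) = Real.exp L := (Real.exp_log hX0).symm
  have hLe : L = Real.exp l := (Real.exp_log hL0).symm
  have hXL : L + 1 ≤ X := by
    rw [hXe]
    exact Real.add_one_le_exp L
  have hX3 : 3 ≤ X := by
    have : (3 : ℝ) ≤ X := by linarith
    exact_mod_cast this
  have hz0 : (0 : ℝ) < z := by exact_mod_cast (show 0 < z by omega)
  have hWe : (PW z : ℝ) ≤ Real.exp (2 * z) := PW_le Pool.Agent.Q111.SZ.t_PWB z
  have hW0 : (0 : ℝ) < PW z := by exact_mod_cast PW_pos z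
  have hW2X : PW z ^ 2 ≤ X := by
    have : (PW z : ℝ) ^ 2 ≤ X := by
      calc (PW z : ℝ) ^ 2 ≤ (Real.exp (2 * z)) ^ 2 := by gcongr
        _ = Real.exp (4 * z) := by rw [← Real.exp_nat_mul]; ring_nf
        _ ≤ Real.exp L := Real.exp_le_exp.2 (by linarith)
        _ = X := hXe.symm
    exact_mod_cast this
  have hz1 : (1 : ℝ) ≤ z := by exact_mod_cast (show 1 ≤ z by omega)
  have hKr : (64 : ℝ) * (K + 1) ≤ z := by exact_mod_cast hKz
  have hK0 : (0 : ℝ) ≤ K := Nat.cast_nonneg _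
  have hKWz : 16 * ((K : ℝ) + 1) * PW z ≤ Real.exp (3 * z) := by
    have h1 : 16 * ((K : ℝ) + 1) ≤ Real.exp z := by
      have := Real.add_one_le_exp (z : ℝ)
      linarith
    calc 16 * ((K : ℝ) + 1) * PW z ≤ Real.exp z * Real.exp (2 * z) := by gcongr
      _ = Real.exp (3 * z) := by rw [← Real.exp_add]; ring_nf
  have h8X : 8 * (K + 1) * PW z ≤ X := by
    have : 8 * ((K : ℝ) + 1) * PW z ≤ X := by
      have h1 : 8 * ((K : ℝ) + 1) * PW z ≤ 16 * ((K : ℝ) + 1) * PW z := by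
        have : 0 ≤ ((K : ℝ) + 1) * PW z := by positivity
        nlinarith
      calc _ ≤ Real.exp (3 * z) := h1.trans hKWz
        _ ≤ Real.exp L := Real.exp_le_exp.2 (by linarith)
        _ = X := hXe.symm
    exact_mod_cast this
  have h2WX : 2 * PW z ≤ X := (Nat.mul_le_mul_right _ (by omega : 2 ≤ 8 * (K + 1))).trans h8X
  have hω : ∀ i, 16 * (K + 1) * PW z * (la (q i)).primeFactors.card ≤ H i := by
    intro i
    have hXH : (X : ℝ) ≤ H i := by exact_mod_cast (hS.scale i).1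
    have hH0 : (0 : ℝ) < H i := by linarith
    set h := Real.log (H i) with hh
    have hhL : L ≤ h := Real.log_le_log hX0 hXH
    have hHe : (H i : ℝ) = Real.exp h := (Real.exp_log hH0).symm
    set w := (la (q i)).primeFactors.card with hw
    have h1 : (2 : ℝ) ^ w ≤ H i := by
      have := (two_pow_omega_le (la_pos (hS.deg i)).ne').trans (hla i)
      exact_mod_cast this
    have h2 : (w : ℝ) ≤ 2 * h := by
      have h3 : (w : ℝ) * Real.log 2 ≤ h := by
        rw [hh, ← Real.log_pow]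
        exact Real.log_le_log (by positivity) h1
      have h4 := Real.log_two_gt_d9
      have h5 : (0 : ℝ) ≤ w := Nat.cast_nonneg _
      nlinarith
    have h3 : 2 * h ≤ Real.exp (h / 2) := by
      have h4 := Real.quadratic_le_exp_of_nonneg (x := h / 2) (by linarith)
      nlinarith
    have h4 : 16 * ((K : ℝ) + 1) * PW z * w ≤ H i := by
      calc 16 * ((K : ℝ) + 1) * PW z * w ≤ Real.exp (3 * z) * (2 * h) := mul_le_mul hKWz h2 (Nat.cast_nonneg _) (Real.exp_pos _).le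
        _ ≤ Real.exp (3 * z) * Real.exp (h / 2) := mul_le_mul_of_nonneg_left h3 (Real.exp_pos _).le
        _ = Real.exp (3 * z + h / 2) := by rw [← Real.exp_add]
        _ ≤ Real.exp h := Real.exp_le_exp.2 (by linarith)
        _ = H i := hHe.symm
    exact_mod_cast h4
  -- the mean
  have hvz : vv (PW z) ≤ Cv * l := by
    refine (hvv z hz2).1.trans ?_
    apply mul_le_mul_of_nonneg_left _ hCv.le
    rw [hldef]
    exact Real.log_le_log hz0 (by linarith)
  have hvv0 := (vv_pos z).le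
  have hY0 : (0 : ℝ) < Y := by exact_mod_cast hY1
  have hη : (Y : ℝ) * (C * vv (PW z) / L) ^ K ≤ ε / 4 := by
    have e1 : C * vv (PW z) / L ≤ Real.exp (θ / 2 * l) * Real.exp (-l) := by
      rw [div_le_iff₀ hL0]
      have : Real.exp (-l) * L = 1 := by
        rw [Real.exp_neg, hldef, Real.exp_log hL0, inv_mul_cancel₀ hL0.ne']
      calc C * vv (PW z) ≤ C * (Cv * l) := by gcongr
        _ ≤ Real.exp (θ / 2 * l) := hl1
        _ = Real.exp (θ / 2 * l) * (Real.exp (-l) * L) := by rw [this, mul_one]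
        _ = _ := by rw [mul_assoc]
    have e2 : (Y : ℝ) ≤ (Real.exp ((1 - θ) * l)) ^ K := by
      rw [← Real.exp_nat_mul, ← Real.exp_log hY0]
      apply Real.exp_le_exp.2
      refine hY.trans (le_of_eq ?_)
      ring
    have e3 : 0 ≤ C * vv (PW z) / L := by positivity
    calc (Y : ℝ) * (C * vv (PW z) / L) ^ K ≤ (Real.exp ((1 - θ) * l)) ^ K * (Real.exp (θ / 2 * l) * Real.exp (-l)) ^ K := by gcongr
      _ = (Real.exp (-(θ / 2 * l))) ^ K := by
        rw [← mul_pow, ← Real.exp_add, ← Real.exp_add]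
        congr 2
        ring
      _ ≤ (Real.exp (-(θ / 2 * l))) ^ 1 := by
        apply pow_le_pow_of_le_one (Real.exp_pos _).le _ hK1
        apply Real.exp_le_one_iff.2
        have : 0 ≤ θ / 2 * l := by positivity
        linarith
      _ = Real.exp (-(θ / 2 * l)) := pow_one _
      _ ≤ _ := hl2
  obtain ⟨E, hE⟩ : ∃ E : (Fin K → ℕ) → Prop, ∀ s, E s ↔ cntQ Y q s ≠ 0 := ⟨_, fun _ => Iff.rfl⟩
  have hcl : ∀ b : Fin K → ZMod (PW z), (((SbQ H b).filter fun s => E s).card : ℝ) ≤ ε / 4 * (SbQ H b).card := by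
    intro b
    have h1 : (((SbQ H b).filter fun s => E s).card : ℝ) ≤ ∑ s ∈ SbQ H b, (cntQ Y q s : ℝ) := by
      rw [card_eq_sum_ones, Nat.cast_sum, sum_filter]
      refine sum_le_sum fun s _ => ?_
      split_ifs with h
      · have : 1 ≤ cntQ Y q s := Nat.one_le_iff_ne_zero.2 ((hE s).1 h)
        exact_mod_cast this
      · exact Nat.cast_nonneg _
    refine h1.trans ((hmean z Y X K H q hX₀ hX3 hW2X h2WX hS b).trans ?_)
    exact mul_le_mul_of_nonneg_right hη (Nat.cast_nonneg _)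
  have ht := transX (E := E) (η := ε / 4) (by omega) hS h8X hω hG (by
    calc _ ≤ ∑ _b ∈ AdQ (PW z) q, ε / 4 := by
          apply sum_le_sum
          intro b _
          exact div_le_of_le_mul₀ (Nat.cast_nonneg _) (by positivity) (hcl b)
      _ = ε / 4 * (AdQ (PW z) q).card := by rw [sum_const, nsmul_eq_mul]; ring)
  have e : (ATQ H q).filter (fun s => cntQ Y q s ≠ 0) = (ATQ H q).filter fun s => E s := filter_congr fun s _ => (hE s).symm
  rw [e]
  refine ht.trans (le_of_eq ?_)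
  ring

open Classical in
/-- the result below the threshold -/
def PZ (θ : ℝ) (X : ℕ) (ε : ℝ) : Prop := ∀ (Y K : ℕ) (T : Fin K → ℕ), 1 ≤ K → (K : ℝ) ≤ Real.log X / Real.log (Real.log X) → 1 ≤ Y →
  Real.log Y ≤ (1 - θ) * (K * Real.log (Real.log X)) → (∀ i, X ≤ 4 * Y * T i ∧ 4 * Y * T i ≤ Uz (4 * (K + 1)) * X) →
  ((((Fintype.piFinset fun i => Icc 1 (T i)).filter fun t => ¬ ((((ATQ (fun i => 4 * Y * T i) (qt (G0 Y T) t)).filter fun s =>
    cntQ Y (qt (G0 Y T) t) s ≠ 0).card : ℝ) ≤ ε * (ATQ (fun i => 4 * Y * T i) (qt (G0 Y T) t)).card)).card : ℕ) : ℝ) ≤ ε * ∏ i, (T i : ℝ)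

theorem lowX : ∀ θ ε : ℝ, 0 < θ → 0 < ε → ∀ᶠ X : ℕ in atTop, PZ θ X ε := by
  classical
  intro θ ε hθ hε
  obtain ⟨C, X₀, hC, hmean⟩ := mean_le
  obtain ⟨Cv, hCv, hvv⟩ := t_PWC
  obtain ⟨z₀, hgm⟩ := gg_most (1 / 8) ε (by norm_num) hε
  have hT1 : Tendsto (fun X : ℕ => Real.log (X : ℝ)) atTop atTop := Real.tendsto_log_atTop.comp tendsto_natCast_atTop_atTop
  have hT2 : Tendsto (fun X : ℕ => Real.log (Real.log (X : ℝ))) atTop atTop := Real.tendsto_log_atTop.comp hT1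
  have hT3 : ∀ᶠ x : ℝ in atTop, C * (Cv * x) ≤ Real.exp (θ / 2 * x) := by
    have h1 := (isLittleO_pow_exp_pos_mul_atTop 1 (show 0 < θ / 2 by positivity)).def (show 0 < 1 / (C * Cv) by positivity)
    filter_upwards [h1, eventually_ge_atTop 0] with x hx hx0
    rw [Real.norm_eq_abs, Real.norm_eq_abs, abs_of_nonneg (Real.exp_pos _).le, pow_one, abs_of_nonneg hx0, one_div, inv_mul_eq_div, le_div_iff₀ (by positivity)] at hx
    linarith
  have hT4 : ∀ᶠ x : ℝ in atTop, Real.exp (-(θ / 2 * x)) ≤ ε / 4 := by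
    have h1 : Tendsto (fun x : ℝ => Real.exp (-(θ / 2 * x))) atTop (nhds 0) := by
      apply Real.tendsto_exp_neg_atTop_nhds_zero.comp
      exact tendsto_id.const_mul_atTop (by positivity)
    exact h1.eventually_le_const (by positivity)
  filter_upwards [hT2.eventually hT3, hT2.eventually hT4, hT2.eventually_ge_atTop 8192, hT1.eventually_ge_atTop (64 + 2 * (4096 + 64 * z₀ + 128)), eventually_ge_atTop X₀] with X e1 e2 e3 e4 e5
  intro Y K T hK1 hKL hY1 hY hSc
  set L := Real.log (X : ℝ) with hL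
  set l := Real.log L with hl
  have hz₀0 : (0 : ℝ) ≤ z₀ := Nat.cast_nonneg _
  have hl0 : 0 < l := by linarith
  have hL0 : 0 < L := by linarith
  set z : ℕ := 64 * (K + 1) + z₀ + 2 with hz
  have hzr : (z : ℝ) = 64 * (K + 1) + z₀ + 2 := by rw [hz]; push_cast; ring
  have hzL : 64 * (z : ℝ) ≤ L := by
    rw [le_div_iff₀ hl0] at hKL
    have h1 : 8192 * (K : ℝ) ≤ L := by
      have hK0 : (0 : ℝ) ≤ K := Nat.cast_nonneg _
      nlinarith
    rw [hzr]
    linarith
  have hsub : ((Fintype.piFinset fun i => Icc 1 (T i)).filter fun t => ¬ ((((ATQ (fun i => 4 * Y * T i) (qt (G0 Y T) t)).filter fun s =>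
      cntQ Y (qt (G0 Y T) t) s ≠ 0).card : ℝ) ≤ ε * (ATQ (fun i => 4 * Y * T i) (qt (G0 Y T) t)).card)) ⊆
      ((Fintype.piFinset fun i => Icc 1 (T i)).filter fun t => ¬ GG z (qt (G0 Y T) t) ≤ 1 / 8) := by
    intro t ht
    rw [mem_filter] at ht ⊢
    refine ⟨ht.1, fun hG => ht.2 ?_⟩
    have hS : SysL z Y X (fun i => 4 * Y * T i) (qt (G0 Y T) t) := sysL_qt ht.1 fun i =>
      ⟨(hSc i).1, (hSc i).2.trans (Nat.mul_le_mul_right _ (Uz_mono (by omega)))⟩
    have ht1 : ∀ i, 1 ≤ t i ∧ t i ≤ T i := by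
      have := ht.1
      rw [Fintype.mem_piFinset] at this
      exact fun i => mem_Icc.1 (this i)
    refine low_core hC hmean hCv hvv hθ hε e5 (by linarith) (by omega) hzL hK1 (by omega) hY1 hl0 hY e1 e2 hS ?_ hG
    intro i
    rw [qt_la Y T t i (ht1 i).1]
    calc t i ≤ T i := (ht1 i).2
      _ ≤ 4 * Y * T i := Nat.le_mul_of_pos_left _ (by omega)
  have h1 : ((((Fintype.piFinset fun i => Icc 1 (T i)).filter fun t => ¬ ((((ATQ (fun i => 4 * Y * T i) (qt (G0 Y T) t)).filter fun s =>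
      cntQ Y (qt (G0 Y T) t) s ≠ 0).card : ℝ) ≤ ε * (ATQ (fun i => 4 * Y * T i) (qt (G0 Y T) t)).card)).card : ℕ) : ℝ) ≤
      ((((Fintype.piFinset fun i => Icc 1 (T i)).filter fun t => ¬ GG z (qt (G0 Y T) t) ≤ 1 / 8).card : ℕ) : ℝ) := by
    exact_mod_cast card_le_card hsub
  exact h1.trans (hgm z Y K T (by omega) (by omega))

end Pool.Agent.Q145.LX
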