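import Pool.Agent.Q145.LX.Bt
import Pool.Agent.Q145.LT.Av
import Pool.Agent.Q272.SZ.PWC

/-!
# Project LX: below the threshold almost all systems have no prime point
-/

set_option autoImplicit false
set_option linter.all false

namespace Pool.Agent.Q145.LX

open Finset Filter
open Pool.Agent.Q145.SZ Pool.Agent.Q145.LQ Pool.Agent.Q145.LE Pool.Agent.Q145.LT

open Classical in
/-- few constants are bad -/
theorem bad_cardX {z Y X K : ℕ} {H : Fin K → ℕ} {q : Fin K → Polynomial ℤ} (hS : SysL z Y X H q) (hX : 8 * (K + 1) * PW z ≤ X)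
    (hω : ∀ i, 16 * (K + 1) * PW z * (la (q i)).primeFactors.card ≤ H i) (b : Fin K → ZMod (PW z)) :
    (((SbQ H b).filter (BadL z q)).card : ℝ) ≤ (2 * GG z q + 1 / 8) * (SbQ H b).card := by
  have hW : 0 < PW z := Nat.pos_of_ne_zero (NeZero.ne (PW z))
  have hWr : (0 : ℝ) < PW z := by exact_mod_cast hW
  set δ : Fin K → ℝ := fun i => ∑ p ∈ (la (q i)).primeFactors.filter (fun p => z < p), (2 / (p : ℝ)) + 1 / (8 * ((K : ℝ) + 1)) with hδ
  have e : ∑ i, δ i ≤ 2 * GG z q + 1 / 8 := by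
    have e1 : ∑ i, δ i = 2 * GG z q + K * (1 / (8 * ((K : ℝ) + 1))) := by
      unfold GG
      rw [hδ, sum_add_distrib, sum_const, card_univ, Fintype.card_fin, nsmul_eq_mul, mul_sum]
      congr 1
      refine sum_congr rfl fun i _ => ?_
      rw [mul_sum]
      refine sum_congr rfl fun p _ => ?_
      ring
    rw [e1]
    have hK0 : (0 : ℝ) ≤ K := Nat.cast_nonneg K
    have : (K : ℝ) * (1 / (8 * ((K : ℝ) + 1))) ≤ 1 / 8 := by
      rw [mul_one_div, div_le_div_iff₀ (by positivity) (by norm_num)]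
      linarith
    linarith
  refine le_trans ?_ (mul_le_mul_of_nonneg_right e (Nat.cast_nonneg _))
  have key := card_bad' (fun i => cls (H i) (b i)) (fun i => (cls (H i) (b i)).filter fun s => ∃ p : ℕ, p.Prime ∧ z < p ∧ p ∣ la (q i) ∧ (p : ℤ) ∣ cf (q i) s) (δ := δ) ?_
  · refine le_trans ?_ key
    have : (SbQ H b).filter (BadL z q) ⊆ (Fintype.piFinset fun i => cls (H i) (b i)).filter fun t => ∃ i, t i ∈ (cls (H i) (b i)).filter fun s => ∃ p : ℕ, p.Prime ∧ z < p ∧ p ∣ la (q i) ∧ (p : ℤ) ∣ cf (q i) s := by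
      intro s hs
      rw [mem_filter] at hs ⊢
      obtain ⟨h1, i, p, hp⟩ := hs
      have h1' := h1
      unfold SbQ at h1'
      rw [Fintype.mem_piFinset] at h1'
      exact ⟨h1, i, mem_filter.2 ⟨h1' i, p, hp⟩⟩
    exact_mod_cast card_le_card this
  · intro i
    have hHW : 2 * (PW z : ℝ) ≤ H i := by
      have h1 := (hS.scale i).1
      have h2 : 2 * PW z ≤ 8 * (K + 1) * PW z := Nat.mul_le_mul_right _ (by omega)
      have : 2 * PW z ≤ H i := by omega
      exact_mod_cast this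
    have hcl := Pool.Agent.Q58.SZ.le_card_cls (H i) (b i)
    have hcl2 : (H i : ℝ) / PW z / 2 ≤ ((cls (H i) (b i)).card : ℝ) := by
      have : 2 ≤ (H i : ℝ) / PW z := by
        rw [le_div_iff₀ hWr]
        exact hHW
      linarith
    have hsub : ((cls (H i) (b i)).filter fun s => ∃ p : ℕ, p.Prime ∧ z < p ∧ p ∣ la (q i) ∧ (p : ℤ) ∣ cf (q i) s) ⊆
        ((la (q i)).primeFactors.filter (fun p => z < p)).biUnion fun p => (cls (H i) (b i)).filter fun s => s ≡ ((-(q i).coeff 0) % p).toNat [MOD p] := by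
      intro s hs
      rw [mem_filter] at hs
      obtain ⟨h1, p, hp, hz, hd, hc⟩ := hs
      rw [mem_biUnion]
      refine ⟨p, mem_filter.2 ⟨Nat.mem_primeFactors.2 ⟨hp, hd, (la_pos (hS.deg i)).ne'⟩, hz⟩, mem_filter.2 ⟨h1, ?_⟩⟩
      rw [← Int.natCast_modEq_iff]
      have hp0 : (0 : ℤ) < p := by exact_mod_cast hp.pos
      rw [Int.toNat_of_nonneg (Int.emod_nonneg _ hp0.ne')]
      unfold cf at hc
      refine Int.ModEq.symm ((Int.mod_modEq _ _).trans ?_)
      rw [Int.modEq_iff_dvd]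
      have e3 : (s : ℤ) - -(q i).coeff 0 = (q i).coeff 0 + s := by ring
      rw [e3]
      exact hc
    have h2 := (card_le_card hsub).trans card_biUnion_le
    have h3 : ((((cls (H i) (b i)).filter fun s => ∃ p : ℕ, p.Prime ∧ z < p ∧ p ∣ la (q i) ∧ (p : ℤ) ∣ cf (q i) s).card : ℕ) : ℝ) ≤
        ∑ p ∈ (la (q i)).primeFactors.filter (fun p => z < p), (((cls (H i) (b i)).filter fun s => s ≡ ((-(q i).coeff 0) % p).toNat [MOD p]).card : ℝ) := by
      exact_mod_cast h2
    refine h3.trans ?_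
    have h4 : ∀ p ∈ (la (q i)).primeFactors.filter (fun p => z < p), (((cls (H i) (b i)).filter fun s => s ≡ ((-(q i).coeff 0) % p).toNat [MOD p]).card : ℝ) ≤
        (2 / (p : ℝ)) * ((cls (H i) (b i)).card : ℝ) + 1 := by
      intro p hp
      rw [mem_filter, Nat.mem_primeFactors] at hp
      obtain ⟨⟨hpp, hpd, _⟩, hzp⟩ := hp
      have hp0 : (0 : ℝ) < p := by exact_mod_cast hpp.pos
      have h4 := (abs_le.1 (Pool.Agent.Q261.SZ.cnt_cls (H i) p ((-(q i).coeff 0) % p).toNat hpp.pos (Pool.Agent.Q261.SZ.coprime_PW hpp hzp) (b i))).2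
      have h5 : (H i : ℝ) / PW z / p ≤ (2 / (p : ℝ)) * ((cls (H i) (b i)).card : ℝ) := by
        calc (H i : ℝ) / PW z / p = (2 / (p : ℝ)) * ((H i : ℝ) / PW z / 2) := by ring
          _ ≤ _ := by gcongr
      linarith
    refine (sum_le_sum h4).trans ?_
    rw [hδ, sum_add_distrib, sum_const, nsmul_eq_mul, mul_one, ← sum_mul, add_mul]
    refine add_le_add le_rfl ?_
    have h6 : (((la (q i)).primeFactors.filter fun p => z < p).card : ℝ) ≤ ((la (q i)).primeFactors.card : ℝ) := by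
      exact_mod_cast card_filter_le _ _
    refine h6.trans ?_
    have h7 : 16 * ((K : ℝ) + 1) * PW z * ((la (q i)).primeFactors.card : ℝ) ≤ H i := by exact_mod_cast hω i
    have h8 : 8 * ((K : ℝ) + 1) * ((la (q i)).primeFactors.card : ℝ) ≤ (H i : ℝ) / PW z / 2 := by
      rw [div_div, le_div_iff₀ (by positivity)]
      linarith
    rw [one_div, inv_mul_eq_div, le_div_iff₀ (by positivity)]
    linarith

open Pool.Agent.Q58.SZ (card_cls_le le_card_cls)
open Pool.Agent.Q210.LQ (card_SbQ mem_SbQ ratio_prod)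

open Classical in
/-- many tuples are admissible -/
theorem le_ATX {z Y X K : ℕ} {H : Fin K → ℕ} {q : Fin K → Polynomial ℤ} (hK : K ≤ z) (hs : SysL z Y X H q) (hX : 8 * (K + 1) * PW z ≤ X)
    (hω : ∀ i, 16 * (K + 1) * PW z * (la (q i)).primeFactors.card ≤ H i) (hG : GG z q ≤ 1 / 8) : (1 / 2) * ∑ b ∈ AdQ (PW z) q, ((SbQ H b).card : ℝ) ≤ ((ATQ H q).card : ℝ) := by
  have h1 : (∑ b ∈ AdQ (PW z) q, (((SbQ H b).filter fun s => ¬ BadL z q s).card : ℝ)) ≤ ((ATQ H q).card : ℝ) := by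
    rw [← Nat.cast_sum, ← Finset.card_biUnion]
    · have : ((AdQ (PW z) q).biUnion fun b => (SbQ H b).filter fun s => ¬ BadL z q s) ⊆ ATQ H q := by
        intro s
        simp only [Finset.mem_filter, Finset.mem_biUnion, ATQ, Fintype.mem_piFinset,
          AdQ, Finset.mem_univ, true_and, mem_SbQ]
        rintro ⟨b, hb, ⟨h1, rfl⟩, h3⟩
        exact ⟨h1, cls_adm hs.deg hK h3 hb⟩
      exact_mod_cast card_le_card this
    · intro b _ b' _ hbb'
      rw [Function.onFun, Finset.disjoint_left]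
      intro s hs hs'
      rw [Finset.mem_filter, mem_SbQ] at hs hs'
      exact hbb' (hs.1.2.symm.trans hs'.1.2)
  refine le_trans ?_ h1
  rw [mul_sum]
  refine sum_le_sum fun b _ => ?_
  have h2 := bad_cardX hs hX hω b
  have h3 : (((SbQ H b).filter (BadL z q)).card : ℝ) + (((SbQ H b).filter fun s => ¬ BadL z q s).card : ℝ) = ((SbQ H b).card : ℝ) := by
    exact_mod_cast Finset.card_filter_add_card_filter_not (s := SbQ H b) (BadL z q)
  have h4 : (2 * GG z q + 1 / 8) * ((SbQ H b).card : ℝ) ≤ 1 / 2 * ((SbQ H b).card : ℝ) := by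
    apply mul_le_mul_of_nonneg_right _ (Nat.cast_nonneg _)
    linarith
  linarith

open Classical in
/-- from the classes to all admissible constants -/
theorem transX {z Yn X K : ℕ} {H : Fin K → ℕ} {q : Fin K → Polynomial ℤ} {E : (Fin K → ℕ) → Prop} {η : ℝ} (hK : K ≤ z)
    (hs : SysL z Yn X H q) (hX : 8 * (K + 1) * PW z ≤ X) (hω : ∀ i, 16 * (K + 1) * PW z * (la (q i)).primeFactors.card ≤ H i) (hG : GG z q ≤ 1 / 8)
    (h : ∑ b ∈ AdQ (PW z) q, (((SbQ H b).filter fun s => E s).card : ℝ) / (SbQ H b).card ≤ η * (AdQ (PW z) q).card) :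
    (((ATQ H q).filter fun s => E s).card : ℝ) ≤ 4 * η * (ATQ H q).card := by
  have hW : (0 : ℝ) < PW z := by exact_mod_cast Nat.pos_of_ne_zero (NeZero.ne (PW z))
  set Y : ℝ := (X : ℝ) / PW z with hYdef
  have hY : 8 * ((K : ℝ) + 1) ≤ Y := by
    rw [hYdef, le_div_iff₀ hW]
    exact_mod_cast hX
  have hK0 : (0 : ℝ) ≤ K := Nat.cast_nonneg K
  set y : Fin K → ℝ := fun i => (H i : ℝ) / PW z with hy
  have hyY : ∀ i, Y ≤ y i := by
    intro i
    rw [hYdef, hy]
    apply div_le_div_of_nonneg_right _ hW.le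
    exact_mod_cast (hs.scale i).1
  have hratio := ratio_prod hY hyY
  set B : ℝ := ∏ i, (y i + 1) with hB
  set A : ℝ := ∏ i, (y i - 1) with hA
  have hA0 : 0 < A := Finset.prod_pos fun i _ => by linarith [hyY i]
  have hB0 : 0 < B := Finset.prod_pos fun i _ => by linarith [hyY i]
  have hSle : ∀ b : Fin K → ZMod (PW z), ((SbQ H b).card : ℝ) ≤ B := by
    intro b
    rw [card_SbQ]
    exact Finset.prod_le_prod (fun _ _ => Nat.cast_nonneg _) fun i _ => card_cls_le (H i) (b i)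
  have hSge : ∀ b : Fin K → ZMod (PW z), A ≤ ((SbQ H b).card : ℝ) := by
    intro b
    rw [card_SbQ]
    exact Finset.prod_le_prod (fun i _ => by linarith [hyY i]) fun i _ => le_card_cls (H i) (b i)
  have h0 : 0 ≤ η * (AdQ (PW z) q).card :=
    le_trans (Finset.sum_nonneg fun b _ => by positivity) h
  have h1 : (((ATQ H q).filter fun s => E s).card : ℝ) ≤ B * (η * (AdQ (PW z) q).card) := by
    refine (sum_ATL (z := z) E).trans ?_
    refine le_trans ?_ (mul_le_mul_of_nonneg_left h hB0.le)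
    rw [Finset.mul_sum]
    refine Finset.sum_le_sum fun b _ => ?_
    have hSpos : (0 : ℝ) < (SbQ H b).card := lt_of_lt_of_le hA0 (hSge b)
    rw [mul_div_assoc', le_div_iff₀ hSpos, mul_comm]
    exact mul_le_mul_of_nonneg_right (hSle b) (Nat.cast_nonneg _)
  have h2 : A * (AdQ (PW z) q).card ≤ 2 * ((ATQ H q).card : ℝ) := by
    have e1 := le_ATX hK hs hX hω hG
    have e2 : A * (AdQ (PW z) q).card ≤ ∑ b ∈ AdQ (PW z) q, ((SbQ H b).card : ℝ) := by
      calc A * (AdQ (PW z) q).card = ∑ _b ∈ AdQ (PW z) q, A := by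
            rw [Finset.sum_const, nsmul_eq_mul, mul_comm]
        _ ≤ ∑ b ∈ AdQ (PW z) q, ((SbQ H b).card : ℝ) :=
          Finset.sum_le_sum fun b _ => hSge b
    linarith
  by_cases hη : 0 ≤ η
  · calc (((ATQ H q).filter fun s => E s).card : ℝ)
        ≤ B * (η * (AdQ (PW z) q).card) := h1
      _ ≤ 2 * A * (η * (AdQ (PW z) q).card) := mul_le_mul_of_nonneg_right hratio h0
      _ = 2 * η * (A * (AdQ (PW z) q).card) := by ring
      _ ≤ 2 * η * (2 * (ATQ H q).card) := mul_le_mul_of_nonneg_left h2 (by linarith)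
      _ = _ := by ring
  · push Not at hη
    have hAd : ((AdQ (PW z) q).card : ℝ) = 0 := by
      have h3 : (0 : ℝ) ≤ (AdQ (PW z) q).card := Nat.cast_nonneg _
      nlinarith
    have hAT : ((ATQ H q).card : ℝ) = 0 := by
      have e1 := sum_ATL (z := z) (H := H) (q := q) (fun _ => True)
      simp only [Finset.filter_true] at e1
      have : AdQ (PW z) q = ∅ := by
        rw [← Finset.card_eq_zero]
        exact_mod_cast hAd
      rw [this, Finset.sum_empty] at e1
      exact le_antisymm e1 (Nat.cast_nonneg _)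
    rw [hAT, mul_zero]
    have h4 : (((ATQ H q).filter fun s => E s).card : ℝ) ≤ (ATQ H q).card := by
      exact_mod_cast Finset.card_filter_le _ _
    linarith



/-- the mean number of prime points, for constants in given classes -/
theorem mean_le : ∃ (C : ℝ) (X₀ : ℕ), 0 < C ∧ ∀ (z Y X K : ℕ) (H : Fin K → ℕ) (q : Fin K → Polynomial ℤ), X₀ ≤ X → 3 ≤ X → PW z ^ 2 ≤ X → 2 * PW z ≤ X → SysL z Y X H q →
    ∀ b : Fin K → ZMod (PW z), ∑ s ∈ SbQ H b, (cntQ Y q s : ℝ) ≤ (Y : ℝ) * (C * vv (PW z) / Real.log X) ^ K * (SbQ H b).card := by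
  classical
  obtain ⟨C, X₀, hC, h⟩ := sum_bt
  refine ⟨C, X₀, hC, ?_⟩
  intro z Y X K H q hX₀ hX3 hW2 h2W hS b
  have hXr : (3 : ℝ) ≤ X := by exact_mod_cast hX3
  have hL0 : 0 < Real.log X := Real.log_pos (by linarith)
  have hXH : ∀ i, X ≤ H i := fun i => (hS.scale i).1
  have hcnt : ∀ s : Fin K → ℕ, (cntQ Y q s : ℝ) = ∑ n ∈ Ioc Y (2 * Y), ∏ i, (if (vq (q i) n + s i).Prime then (1 : ℝ) else 0) := by
    intro s
    unfold cntQ
    rw [card_eq_sum_ones, Nat.cast_sum, sum_filter]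
    refine sum_congr rfl fun n _ => ?_
    rw [Finset.prod_ite_zero]
    simp
  have h1 : ∑ s ∈ SbQ H b, (cntQ Y q s : ℝ) = ∑ n ∈ Ioc Y (2 * Y), ∏ i, ∑ t ∈ cls (H i) (b i), (if (vq (q i) n + t).Prime then (1 : ℝ) else 0) := by
    rw [sum_congr rfl fun s _ => hcnt s, sum_comm]
    refine sum_congr rfl fun n _ => ?_
    unfold SbQ
    rw [Finset.prod_univ_sum]
  have h2 : ∀ n ∈ Ioc Y (2 * Y), ∀ i, ∑ t ∈ cls (H i) (b i), (if (vq (q i) n + t).Prime then (1 : ℝ) else 0) ≤
      (C * vv (PW z) / Real.log X) * ((cls (H i) (b i)).card : ℝ) := by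
    intro n hn i
    have h3 := h z (H i) (vq (q i) n) (hX₀.trans (hXH i)) (hW2.trans (hXH i)) (h2W.trans (hXH i)) (hS.mem i hn).1 (b i)
    have h4 : ∀ t ∈ cls (H i) (b i), Real.log X * (if (vq (q i) n + t).Prime then (1 : ℝ) else 0) ≤ wt (vq (q i) n + t) := by
      intro t _
      unfold wt
      split_ifs with hp
      · rw [mul_one]
        apply Real.log_le_log (by linarith)
        have h5 := (mem_Ioc.1 (hS.mem i hn).1).1
        have h6 := hXH i
        have : X ≤ vq (q i) n + t := by omega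
        exact_mod_cast this
      · simp
    have h5 := sum_le_sum h4
    rw [← mul_sum] at h5
    have h6 := h5.trans h3
    rw [div_mul_eq_mul_div, le_div_iff₀ hL0]
    calc _ = Real.log X * ∑ t ∈ cls (H i) (b i), (if (vq (q i) n + t).Prime then (1 : ℝ) else 0) := by ring
      _ ≤ _ := h6
      _ = _ := by ring
  rw [h1]
  have h7 : ∀ n ∈ Ioc Y (2 * Y), ∏ i, ∑ t ∈ cls (H i) (b i), (if (vq (q i) n + t).Prime then (1 : ℝ) else 0) ≤
      (C * vv (PW z) / Real.log X) ^ K * (SbQ H b).card := by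
    intro n hn
    refine (prod_le_prod (fun i _ => sum_nonneg fun t _ => by split_ifs <;> norm_num) fun i _ => h2 n hn i).trans (le_of_eq ?_)
    rw [prod_mul_distrib, prod_const, card_univ, Fintype.card_fin]
    unfold SbQ
    rw [Fintype.card_piFinset]
    push_cast
    rfl
  refine (sum_le_card_nsmul _ _ _ h7).trans (le_of_eq ?_)
  rw [nsmul_eq_mul, Nat.card_Ioc, two_mul, Nat.add_sub_cancel]
  ring

end Pool.Agent.Q145.LX
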