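import Pool.Agent.Q145.LT.Pr
import Pool.Agent.Q145.LX.Su
import Pool.Agent.Q145.LX.Lo2

/-!
# Project LX: one common slope (prime tuples in progressions to large moduli)
-/

set_option autoImplicit false
set_option linter.all false

namespace Pool.Agent.Q145.LX

open Finset Filter
open Pool.Agent.Q145.SZ Pool.Agent.Q145.LQ Pool.Agent.Q145.LE Pool.Agent.Q145.LT
open Pool.Agent.Q145.LS (SUFP SUFc case1 case2 dich)

open Classical in
/-- for most common slopes few pairs are exceptional -/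
theorem exq_cx (prt : S_PRT) (tau : S_TAU) (a₀ : ℕ) : ∀ ε : ℝ, 0 < ε → ∃ M : ℝ, 64 ≤ M ∧ ∀ (z Y X K T : ℕ) (D : Finset ℕ),
    M ≤ Real.log (Real.log X) → 64 * Real.log (Real.log X) ≤ z → 64 * z * Real.log (Real.log X) ≤ Real.log X → 64 * (z : ℝ) ≤ Real.log Y → Y ≤ X → K ≤ z →
    X ≤ 4 * Y * T ∧ 4 * Y * T ≤ Uz z * X →
    D ⊆ Icc 1 (4 * Y * T) → (D.card : ℝ) ≤ ((4 * Y * T : ℕ) : ℝ) / (PW z : ℝ) ^ (4 * a₀ + 40) →
    ((((Icc 1 T).filter fun t => ¬ (((exq Y (qt (G0 Y fun _ : Fin K => T) fun _ => t) fun _ => D).card : ℝ) ≤ (Y : ℝ) ^ 2 / (PW z : ℝ) ^ (2 * (a₀ + 8)))).card : ℕ) : ℝ) ≤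
      ε * T := by
  intro ε hε
  obtain ⟨Ct, hCt, ht⟩ := tau
  obtain ⟨z₁, hz₁⟩ := Pool.Agent.Q111.SZ.t_PWB.2
  set M : ℝ := 64 + 64 * Ct + z₁ + 1 / ε with hM
  have p1 : 0 < 1 / ε := by positivity
  have p2 : (0 : ℝ) ≤ z₁ := by positivity
  have hM64 : 64 ≤ M := by linarith
  refine ⟨M, hM64, ?_⟩
  intro z Y X K T D hX hz hzX hzY hYX hK hsc hDs hDc
  obtain ⟨hL0, hLM, hzM, hzL, hzl, hXe, hYe, hLe, hl64, hlL, hYXl, hzY64⟩ := elemX hM64 (le_refl (64 : ℝ)) hX hYX hz hzX hzY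
  have hscale := fun (Z : ℕ) (h1 : X ≤ Z) (h2 : Z ≤ Uz z * X) => scaleE hl64 hz (by linarith) h1 h2
  set L := Real.log X with hL
  set l := Real.log L with hl
  have hz0 : (0 : ℝ) < z := by linarith
  have hY0 : (0 : ℝ) < Y := by rw [hYe]; exact Real.exp_pos _
  have hX0 : (0 : ℝ) < X := by rw [hXe]; exact Real.exp_pos _
  have hz1 : z₁ ≤ z := by
    have : (z₁ : ℝ) ≤ z := by linarith
    exact_mod_cast this
  have hW := hz₁ z hz1
  have hW1 := one_le_PW z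
  set W : ℝ := (PW z : ℝ) with hWd
  have hW0 : 0 < W := by linarith
  have hL1 : 1 ≤ L := by linarith
  have hLW : L ^ 32 ≤ W := by
    calc L ^ 32 = Real.exp (32 * l) := by
          rw [hLe, show (32 : ℝ) = ((32 : ℕ) : ℝ) by norm_num, Real.exp_nat_mul]
      _ ≤ Real.exp ((z : ℝ) / 2) := Real.exp_le_exp.2 (by linarith)
      _ ≤ W := hW
  have hL6 : L ^ 6 ≤ W := (pow_le_pow_right₀ hL1 (by norm_num)).trans hLW
  have hXL : L ≤ X := by
    have := Real.add_one_le_exp L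
    rw [← hXe] at this; linarith
  have hX3 : 3 ≤ X := by
    have : (3 : ℝ) ≤ X := by linarith
    exact_mod_cast this
  rcases Nat.eq_zero_or_pos K with hK0 | hK0
  · subst hK0
    have e : ((Icc 1 T).filter fun t => ¬ (((exq Y (qt (G0 Y fun _ : Fin 0 => T) fun _ => t) fun _ => D).card : ℝ) ≤ (Y : ℝ) ^ 2 / W ^ (2 * (a₀ + 8)))) = ∅ := by
      apply filter_eq_empty_iff.2
      intro t _
      rw [not_not]
      have : (exq Y (qt (G0 Y fun _ : Fin 0 => T) fun _ => t) fun _ => D) = ∅ := by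
        unfold exq
        apply filter_eq_empty_iff.2
        rintro x _ ⟨i, _⟩
        exact i.elim0
      rw [this]
      simp
      positivity
    rw [e]
    simp
    positivity
  have hKz : (K : ℝ) ≤ z := by exact_mod_cast hK
  have hK1 : (1 : ℝ) ≤ K := by exact_mod_cast hK0
  have hKp : (0 : ℝ) < K := by linarith
  have hzLr : (z : ℝ) ≤ L := by linarith
  have hCtL : 64 * Ct ≤ L := by linarith
  -- pairs
  set N : ℕ → ℝ := fun t => (((((Ioc Y (2 * Y)) ×ˢ (Ioc Y (2 * Y))).filter fun x : ℕ × ℕ =>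
    dst (vq (Polynomial.C (5 * Y * T : ℤ) + Polynomial.C (t : ℤ) * Polynomial.X) x.1) (vq (Polynomial.C (5 * Y * T : ℤ) + Polynomial.C (t : ℤ) * Polynomial.X) x.2) ∈ D).card : ℕ) : ℝ) with hN
  have hN0 : ∀ t, 0 ≤ N t := fun t => Nat.cast_nonneg _
  have hnn : ∀ t ∈ Icc 1 T, ∀ n ∈ Ioc Y (2 * Y), 0 ≤ (Polynomial.C (5 * Y * T : ℤ) + Polynomial.C (t : ℤ) * Polynomial.X).eval (n : ℤ) := by
    intro t hti n hn
    simp only [Polynomial.eval_add, Polynomial.eval_mul, Polynomial.eval_C, Polynomial.eval_X]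
    positivity
  have key : ∑ t ∈ Icc 1 T, N t ≤ L ^ 5 * (Y : ℝ) ^ 2 * T / W ^ (2 * a₀ + 20) := by
    obtain ⟨s1, s2, s3, s4⟩ := hscale _ hsc.1 hsc.2
    have h0 : 0 ∉ D := fun h => by
      have := hDs h
      rw [mem_Icc] at this
      omega
    have h1 := prt Y T (Polynomial.C (5 * Y * T : ℤ)) D hnn h0
    rw [show 4 * a₀ + 40 = 2 * (2 * a₀ + 20) by ring] at hDc
    have h2 := tau_small (L := L) hCt hW1 (hX3.trans hsc.1) ht hDs hDc s2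
    have hT0 : (0 : ℝ) ≤ T := Nat.cast_nonneg _
    calc _ ≤ 4 * Y * ∑ h ∈ D, (h.divisors.card : ℝ) := h1
      _ ≤ 4 * Y * (4 * Ct * L ^ 2 * ((4 * Y * T : ℕ) : ℝ) / W ^ (2 * a₀ + 20)) := by gcongr
      _ = (64 * Ct) * L ^ 2 * (Y : ℝ) ^ 2 * T / W ^ (2 * a₀ + 20) := by
        push_cast
        ring
      _ ≤ L * L ^ 2 * (Y : ℝ) ^ 2 * T / W ^ (2 * a₀ + 20) := by gcongr
      _ = L ^ 3 * (Y : ℝ) ^ 2 * T / W ^ (2 * a₀ + 20) := by ring
      _ ≤ _ := by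
        gcongr
        norm_num
  -- bad values of `t`
  have hp : 0 < (Y : ℝ) ^ 2 / (K * W ^ (2 * (a₀ + 8))) := by positivity
  set B : Finset ℕ := (Icc 1 T).filter fun t => (Y : ℝ) ^ 2 / (K * W ^ (2 * (a₀ + 8))) < N t with hB
  have hT0 : (0 : ℝ) ≤ T := Nat.cast_nonneg _
  have hBc : (B.card : ℝ) ≤ 1 / W ^ 3 * T := by
    have h1 : (B.card : ℝ) * ((Y : ℝ) ^ 2 / (K * W ^ (2 * (a₀ + 8)))) ≤ ∑ t ∈ Icc 1 T, N t := by
      calc (B.card : ℝ) * ((Y : ℝ) ^ 2 / (K * W ^ (2 * (a₀ + 8)))) = ∑ _t ∈ B, (Y : ℝ) ^ 2 / (K * W ^ (2 * (a₀ + 8))) := by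
            rw [sum_const, nsmul_eq_mul]
        _ ≤ ∑ t ∈ B, N t := sum_le_sum fun t ht => (mem_filter.1 ht).2.le
        _ ≤ ∑ t ∈ Icc 1 T, N t := sum_le_sum_of_subset_of_nonneg (filter_subset _ _) fun t _ _ => hN0 t
    have h2 := h1.trans key
    rw [← le_div_iff₀ hp] at h2
    refine h2.trans ?_
    calc L ^ 5 * (Y : ℝ) ^ 2 * T / W ^ (2 * a₀ + 20) / ((Y : ℝ) ^ 2 / (K * W ^ (2 * (a₀ + 8))))
        = L ^ 5 * K * T / W ^ 4 := by
          rw [show 2 * a₀ + 20 = 2 * (a₀ + 8) + 4 by ring, pow_add]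
          field_simp
      _ ≤ L ^ 5 * L * T / W ^ 4 := by gcongr; linarith
      _ = L ^ 6 * T / W ^ 4 := by ring
      _ ≤ W * T / W ^ 4 := by gcongr
      _ = 1 / W ^ 3 * T := by field_simp
  have hsub : ((Icc 1 T).filter fun t => ¬ (((exq Y (qt (G0 Y fun _ : Fin K => T) fun _ => t) fun _ => D).card : ℝ) ≤ (Y : ℝ) ^ 2 / W ^ (2 * (a₀ + 8)))) ⊆ B := by
    intro t htt
    rw [mem_filter] at htt
    rw [hB, mem_filter]
    refine ⟨htt.1, ?_⟩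
    by_contra hcon
    apply htt.2
    calc ((exq Y (qt (G0 Y fun _ : Fin K => T) fun _ => t) fun _ => D).card : ℝ) ≤ ∑ _i : Fin K, N t := exq_le Y (qt (G0 Y fun _ : Fin K => T) fun _ => t) fun _ => D
      _ ≤ ∑ _i : Fin K, (Y : ℝ) ^ 2 / (K * W ^ (2 * (a₀ + 8))) := sum_le_sum fun i _ => not_lt.1 hcon
      _ = (Y : ℝ) ^ 2 / W ^ (2 * (a₀ + 8)) := by
        rw [sum_const, card_univ, Fintype.card_fin, nsmul_eq_mul]
        field_simp
  have h5 : ((((Icc 1 T).filter fun t => ¬ (((exq Y (qt (G0 Y fun _ : Fin K => T) fun _ => t) fun _ => D).card : ℝ) ≤ (Y : ℝ) ^ 2 / W ^ (2 * (a₀ + 8)))).card : ℕ) : ℝ) ≤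
      B.card := by exact_mod_cast card_le_card hsub
  have h6 : (K : ℝ) * (1 / W ^ 3) ≤ ε := by
    have hLε : 1 / ε ≤ L := by linarith
    have h7 : 1 ≤ ε * L := by
      rw [div_le_iff₀ hε] at hLε
      linarith
    have h8 : (K : ℝ) ≤ L := by linarith
    have h9 : L ^ 2 ≤ W ^ 3 := by
      calc L ^ 2 ≤ L ^ 32 := pow_le_pow_right₀ hL1 (by norm_num)
        _ ≤ W := hLW
        _ = W ^ 1 := (pow_one W).symm
        _ ≤ W ^ 3 := pow_le_pow_right₀ hW1 (by norm_num)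
    rw [mul_one_div, div_le_iff₀ (by positivity)]
    calc (K : ℝ) ≤ L * 1 := by linarith
      _ ≤ L * (ε * L) := by gcongr
      _ = ε * L ^ 2 := by ring
      _ ≤ ε * W ^ 3 := by gcongr
  have h11 : (1 : ℝ) / W ^ 3 ≤ ε := by
    have : (1 : ℝ) / W ^ 3 ≤ K * (1 / W ^ 3) := le_mul_of_one_le_left (by positivity) hK1
    linarith
  exact h5.trans (hBc.trans (mul_le_mul_of_nonneg_right h11 hT0))

open Classical in
/-- the result for one common slope -/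
def PCX (θ C : ℝ) (X Q : ℕ) (ε : ℝ) : Prop := ∀ (Y K T : ℕ),
  ((1 + θ) * K + C) * Real.log (Real.log X) ≤ Real.log Y → Y ≤ X → 4 * (K + 1) ≤ Q →
  X ≤ 4 * Y * T ∧ 4 * Y * T ≤ Uz (4 * (K + 1)) * X →
  ((((Icc 1 T).filter fun t => ¬ HLC Y (fun _ : Fin K => 4 * Y * T) (qt (G0 Y fun _ : Fin K => T) fun _ => t) ε).card : ℕ) : ℝ) ≤ ε * T

open Classical in
theorem sufCX {θ : ℝ} (hθ0 : 0 < θ) (hθ1 : θ ≤ 1) : ∃ C : ℝ, 0 < C ∧ SUFP (PCX θ C) := by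
  obtain ⟨a₀, vbA⟩ := vbx
  have vb := vbA θ hθ0 hθ1
  obtain ⟨B, C₀, hB, hC₀, hin⟩ := inputsE anE Pool.Agent.Q53.LQ.H2U.main (2 * (a₀ + 11)) (4 * a₀ + 40) (by omega)
  have hκr : 64 ≤ 64 / θ := by
    rw [le_div_iff₀ hθ0]
    linarith
  have hκ0 : 0 < 64 / θ := by positivity
  refine ⟨64 / θ * (C₀ + 2) + 2, by positivity, B, C₀ + 1, hB, by linarith, fun ε hε => ?_⟩
  obtain ⟨M₁, hM₁, hexq⟩ := exq_cx t_PRT t_TAU a₀ (ε / 2) (by positivity)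
  obtain ⟨M₂, g₂, hM₂, hg₂, hnear⟩ := near_linX (min (ε / 2) 1 / 16) (ε / 2 / 16) (by positivity) (by positivity)
  obtain ⟨M₃, g₃, hM₃, hg₃, hh⟩ := hls_boundX hθ0 hθ1 vb t_MBQ Pool.Agent.Q111.SZ.t_PWB (ε / 2) (by positivity)
  obtain ⟨M₄, hM₄, hcv⟩ := conv_linX (ε / 2) (by positivity)
  set g : ℝ := min (min g₂ g₃) (1 / 8) with hg
  have hg0 : 0 < g := by positivity
  have hgg2 : g ≤ g₂ := (min_le_left _ _).trans (min_le_left _ _)
  have hgg3 : g ≤ g₃ := (min_le_left _ _).trans (min_le_right _ _)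
  have hgg4 : g ≤ 1 / 8 := min_le_right _ _
  obtain ⟨z₀, hgm⟩ := gg_c g (ε / 2) hg0 (by positivity)
  have hz₀0 : (0 : ℝ) ≤ z₀ := Nat.cast_nonneg _
  refine ⟨M₁ + M₂ + M₃ + M₄ + C₀ + z₀ + 1 + 64 * (64 / θ), by linarith, ?_⟩
  intro z₁ X ω T hl hz₁ hzL₁ hω hω4 hωL hT hTz₁ hTL hZF₁ Q hQ₁ Y K Tt hYl hYX hKQ hSys
  set l := Real.log (Real.log X) with hldef
  have hl0 : 0 < l := by linarith
  have hl1 : 1 ≤ l := by linarith
  -- the smaller sieve level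
  set z : ℕ := max (64 * (K + 1)) ⌈C₀ * l⌉₊ with hzdef
  have hzz : z ≤ z₁ := by
    apply max_le (by omega)
    apply Nat.ceil_le.2
    refine le_trans ?_ hz₁
    have e : (C₀ + 1) * l = C₀ * l + l := by ring
    linarith
  have hz : C₀ * l ≤ z := (Nat.le_ceil _).trans (by exact_mod_cast le_max_right _ _)
  have hK64 : 64 * (K + 1) ≤ z := le_max_left _ _
  have hzub : (z : ℝ) ≤ 64 * (K + 1) + C₀ * l + 1 := by
    have h1 : (⌈C₀ * l⌉₊ : ℝ) ≤ C₀ * l + 1 := (Nat.ceil_lt_add_one (by positivity)).le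
    have h2 : (z : ℝ) = max ((64 * (K + 1) : ℕ) : ℝ) (⌈C₀ * l⌉₊ : ℝ) := by
      rw [hzdef]
      push_cast
      rfl
    have h3 : 0 ≤ (K : ℝ) := Nat.cast_nonneg _
    have h4 : 0 ≤ C₀ * l := by positivity
    rw [h2]
    apply max_le
    · push_cast
      linarith
    · linarith
  have hzzr : (z : ℝ) ≤ z₁ := by exact_mod_cast hzz
  have hz0 : (0 : ℝ) ≤ z := by positivity
  have hlog0 : 0 ≤ Real.log X := Real.log_natCast_nonneg X
  have hC₀0 : 0 ≤ C₀ := by linarith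
  have hz₁0 : (0 : ℝ) ≤ z₁ := by positivity
  have hC₀l : 0 ≤ C₀ * l := by positivity
  have hzl0 : 0 ≤ (z₁ : ℝ) * l := by positivity
  have hS : X ≤ 4 * Y * Tt ∧ 4 * Y * Tt ≤ Uz z * X := ⟨hSys.1, hSys.2.trans (Nat.mul_le_mul_right _ (Uz_mono (by omega)))⟩
  have c2 : C₀ * z * l ≤ Real.log X := by
    have h1 : C₀ * z * l ≤ C₀ * z₁ * l := by gcongr
    have e : (C₀ + 1) * z₁ * l = C₀ * z₁ * l + z₁ * l := by ring
    linarith
  have c3 : C₀ * l ≤ ω * Real.log X := by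
    have e : (C₀ + 1) * l = C₀ * l + l := by ring
    linarith
  have c4 : 7 * √(Real.log X) ≤ Real.log T := by
    refine le_trans ?_ hTL
    have := Real.sqrt_nonneg (Real.log X)
    linarith
  have hTz : 120 * B * z ≤ Real.log T := by
    refine le_trans ?_ hTz₁
    gcongr
  have hZF : ZF (PW z ^ B) ω T := ZF_mono (Nat.pow_le_pow_left (PW_mono hzz) B) hZF₁
  have c5 : 64 * l ≤ z := by
    have : (64 : ℝ) * l ≤ C₀ * l := by gcongr
    linarith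
  have hKr : 0 ≤ (K : ℝ) := Nat.cast_nonneg _
  have c6 : 64 / θ * z ≤ Real.log Y := by
    refine le_trans ?_ hYl
    have h1 : 64 * (64 / θ) ≤ l := by linarith
    have h3 : 64 / θ * z ≤ 64 / θ * (64 * (K + 1) + C₀ * l + 1) := mul_le_mul_of_nonneg_left hzub hκ0.le
    have h4 : 64 / θ * (64 * ((K : ℝ) + 1)) ≤ l * (K + 1) := by
      calc 64 / θ * (64 * ((K : ℝ) + 1)) = (64 * (64 / θ)) * (K + 1) := by ring
        _ ≤ _ := by gcongr
    have h5 : 64 / θ * 1 ≤ 64 / θ * l := mul_le_mul_of_nonneg_left hl1 hκ0.le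
    have h6 : 0 ≤ θ * K * l := by positivity
    have e1 : 64 / θ * (64 * ((K : ℝ) + 1) + C₀ * l + 1) = 64 / θ * (64 * ((K : ℝ) + 1)) + 64 / θ * (C₀ * l) + 64 / θ * 1 := by ring
    have e2 : ((1 + θ) * K + (64 / θ * (C₀ + 2) + 2)) * l = K * l + θ * K * l + 64 / θ * (C₀ * l) + 2 * (64 / θ * l) + 2 * l := by ring
    have e3 : l * ((K : ℝ) + 1) = K * l + l := by ring
    have h7 : 0 ≤ 64 / θ * l := by positivity
    rw [e2]
    rw [e1] at h3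
    linarith
  have c8 : (1 + θ) * (K * l) ≤ Real.log Y := by
    refine le_trans ?_ hYl
    have h6 : 0 ≤ (64 / θ * (C₀ + 2) + 2) * l := by positivity
    have e2 : ((1 + θ) * K + (64 / θ * (C₀ + 2) + 2)) * l = (1 + θ) * (K * l) + (64 / θ * (C₀ + 2) + 2) * l := by ring
    linarith
  have c7 : 64 * (z : ℝ) ≤ Real.log Y := by
    have h1 : (64 : ℝ) * z ≤ 64 / θ * z := by gcongr
    linarith
  have c9 : 64 * z * l ≤ Real.log X := by
    have h1 : (64 : ℝ) * z * l ≤ C₀ * z * l := by gcongr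
    linarith
  have hKz : K ≤ z := by omega
  have hz₀z : z₀ ≤ z := by
    have : (z₀ : ℝ) ≤ z := by linarith
    exact_mod_cast this
  obtain ⟨h1, D, hD, hDc, h2⟩ := hin z X ω T (by linarith) hz c2 hω hω4 c3 hT hTz c4 hZF (4 * Y * Tt) hS.1 hS.2
  have hex := hexq z Y X K Tt D (by linarith) c5 c9 c7 hYX hKz hS hD hDc
  have hgm1 := hgm z Y K Tt hz₀z hKz
  have hsub : ((Icc 1 Tt).filter fun t => ¬ HLC Y (fun _ : Fin K => 4 * Y * Tt) (qt (G0 Y fun _ : Fin K => Tt) fun _ => t) ε) ⊆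
      ((Icc 1 Tt).filter fun t => ¬ (((exq Y (qt (G0 Y fun _ : Fin K => Tt) fun _ => t) fun _ => D).card : ℝ) ≤ (Y : ℝ) ^ 2 / (PW z : ℝ) ^ (2 * (a₀ + 8)))) ∪
      ((Icc 1 Tt).filter fun t => ¬ GG z (qt (G0 Y fun _ : Fin K => Tt) fun _ => t) ≤ g) := by
    intro t htt
    rw [mem_filter] at htt
    by_contra hcon
    rw [mem_union, mem_filter, mem_filter, not_or] at hcon
    have k1 : ((exq Y (qt (G0 Y fun _ : Fin K => Tt) fun _ => t) fun _ => D).card : ℝ) ≤ (Y : ℝ) ^ 2 / (PW z : ℝ) ^ (2 * (a₀ + 8)) := by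
      by_contra h
      exact hcon.1 ⟨htt.1, h⟩
    have k2 : GG z (qt (G0 Y fun _ : Fin K => Tt) fun _ => t) ≤ g := by
      by_contra h
      exact hcon.2 ⟨htt.1, h⟩
    apply htt.2
    have hSt : SysL z Y X (fun _ : Fin K => 4 * Y * Tt) (qt (G0 Y fun _ : Fin K => Tt) fun _ => t) :=
      sysL_qt (T := fun _ : Fin K => Tt) (t := fun _ => t) (by rw [Fintype.mem_piFinset]; exact fun _ => htt.1) fun _ => hS
    exact hlc_of hε (hh z Y X K (fun _ => 4 * Y * Tt) (qt (G0 Y fun _ => Tt) fun _ => t) (fun _ => D) (by linarith) c5 c9 c6 c8 hYX hK64 hSt (k2.trans hgg3) (fun i => ⟨h1, h2⟩) k1 _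
      (hnear z Y X K (fun _ => 4 * Y * Tt) (qt (G0 Y fun _ => Tt) fun _ => t) (by linarith) c5 c9 c7 hYX (by omega) hSt (k2.trans hgg2)))
      (hcv z Y X K (fun _ => 4 * Y * Tt) (qt (G0 Y fun _ => Tt) fun _ => t) (by linarith) c5 c9 c7 hYX (by omega) hSt (k2.trans hgg4))
  have h3 := (card_le_card hsub).trans (card_union_le _ _)
  have h4 : ((((Icc 1 Tt).filter fun t => ¬ HLC Y (fun _ : Fin K => 4 * Y * Tt) (qt (G0 Y fun _ : Fin K => Tt) fun _ => t) ε).card : ℕ) : ℝ) ≤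
      ((((Icc 1 Tt).filter fun t => ¬ (((exq Y (qt (G0 Y fun _ : Fin K => Tt) fun _ => t) fun _ => D).card : ℝ) ≤ (Y : ℝ) ^ 2 / (PW z : ℝ) ^ (2 * (a₀ + 8)))).card : ℕ) : ℝ) +
      ((((Icc 1 Tt).filter fun t => ¬ GG z (qt (G0 Y fun _ : Fin K => Tt) fun _ => t) ≤ g).card : ℕ) : ℝ) := by exact_mod_cast h3
  linarith

/-- all three parts with one constant `C` -/
theorem mainCX {θ : ℝ} (hθ0 : 0 < θ) (hθ1 : θ ≤ 1) : ∃ C₁ : ℝ, 0 < C₁ ∧
    (∀ A ε : ℝ, 0 < ε → ∀ᶠ X : ℕ in atTop, ∀ Q : ℕ, (Q : ℝ) ≤ A * Real.log (Real.log X) → PCX θ C₁ X Q ε) ∧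
    (∃ c : ℝ, 0 < c ∧ ∀ ε : ℝ, 0 < ε → ∃ᶠ X : ℕ in atTop, ∀ Q : ℕ, (Q : ℝ) ≤ c * (Real.log X / Real.log (Real.log X)) → PCX θ C₁ X Q ε) ∧
    (∃ c C : ℝ, 0 < c ∧ 0 < C ∧ ∀ ε : ℝ, 0 < ε → ∀ᶠ X : ℕ in atTop,
      (∀ (r : ℕ) [NeZero r], 1 < r → (r : ℝ) ≤ Real.exp (Real.log X / Real.log (Real.log X)) → ∀ χ : DirichletCharacter ℂ r, χ.IsPrimitive → χ ^ 2 = 1 →
        ∀ β : ℝ, χ.LFunction β = 0 → β ≤ 1 - C * (Real.log (Real.log X) / Real.log X)) →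
      ∀ Q : ℕ, (Q : ℝ) ≤ c * (Real.log X / Real.log (Real.log X)) → PCX θ C₁ X Q ε) := by
  obtain ⟨C₁, hC₁, h⟩ := sufCX hθ0 hθ1
  exact ⟨C₁, hC₁, fun A ε hε => case1 zr' Pool.Agent.Q111.SZ.t_PWB Pool.Agent.Q177.SZ.t_SIEG h A ε hε,
    case2 Pool.Agent.Q111.SZ.t_PWB h good', dich zr' Pool.Agent.Q111.SZ.t_PWB h⟩


open Classical in
/-- the result below the threshold, one common slope -/
def PCZ (θ : ℝ) (X : ℕ) (ε : ℝ) : Prop := ∀ (Y K T : ℕ), 1 ≤ K → (K : ℝ) ≤ Real.log X / Real.log (Real.log X) → 1 ≤ Y →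
  Real.log Y ≤ (1 - θ) * (K * Real.log (Real.log X)) → X ≤ 4 * Y * T ∧ 4 * Y * T ≤ Uz (4 * (K + 1)) * X →
  ((((Icc 1 T).filter fun t => ¬ ((((ATQ (fun _ : Fin K => 4 * Y * T) (qt (G0 Y fun _ : Fin K => T) fun _ => t)).filter fun s =>
    cntQ Y (qt (G0 Y fun _ : Fin K => T) fun _ => t) s ≠ 0).card : ℝ) ≤ ε * (ATQ (fun _ : Fin K => 4 * Y * T) (qt (G0 Y fun _ : Fin K => T) fun _ => t)).card)).card : ℕ) : ℝ) ≤ ε * T

theorem lowCX : ∀ θ ε : ℝ, 0 < θ → 0 < ε → ∀ᶠ X : ℕ in atTop, PCZ θ X ε := by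
  classical
  intro θ ε hθ hε
  obtain ⟨C, X₀, hC, hmean⟩ := mean_le
  obtain ⟨Cv, hCv, hvv⟩ := t_PWC
  obtain ⟨z₀, hgm⟩ := gg_c (1 / 8) ε (by norm_num) hε
  have hT1 : Tendsto (fun X : ℕ => Real.log (X : ℝ)) atTop atTop := Real.tendsto_log_atTop.comp tendsto_natCast_atTop_atTop
  have hT2 : Tendsto (fun X : ℕ => Real.log (Real.log (X : ℝ))) atTop atTop := Real.tendsto_log_atTop.comp hT1
  have hT3 : ∀ᶠ x : ℝ in atTop, C * (Cv * x) ≤ Real.exp (θ / 2 * x) := by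
    have h1 := (isLittleO_pow_exp_pos_mul_atTop 1 (show 0 < θ / 2 by positivity)).def (show 0 < 1 / (C * Cv) by positivity)
    filter_upwards [h1, eventually_ge_atTop 0] with x hx hx0
    rw [Real.norm_eq_abs, Real.norm_eq_abs, abs_of_nonneg (Real.exp_pos _).le, pow_one, abs_of_nonneg hx0, one_div, inv_mul_eq_div, le_div_iff₀ (by positivity)] at hx
    linarith
  have hT4 : ∀ᶠ x : ℝ in atTop, Real.exp (-(θ / 2 * x)) ≤ ε / 4 := by
    have h1 : Tendsto (fun x : ℝ => Real.exp (-(θ / 2 * x))) atTop (nhds 0) := by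
      apply Real.tendsto_exp_neg_atTop_nhds_zero.comp
      exact tendsto_id.const_mul_atTop (by positivity)
    exact h1.eventually_le_const (by positivity)
  filter_upwards [hT2.eventually hT3, hT2.eventually hT4, hT2.eventually_ge_atTop 8192, hT1.eventually_ge_atTop (64 + 2 * (4096 + 64 * z₀ + 128)), eventually_ge_atTop X₀] with X e1 e2 e3 e4 e5
  intro Y K T hK1 hKL hY1 hY hSc
  set L := Real.log (X : ℝ) with hL
  set l := Real.log L with hl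
  have hz₀0 : (0 : ℝ) ≤ z₀ := Nat.cast_nonneg _
  have hl0 : 0 < l := by linarith
  have hL0 : 0 < L := by linarith
  set z : ℕ := 64 * (K + 1) + z₀ + 2 with hz
  have hzr : (z : ℝ) = 64 * (K + 1) + z₀ + 2 := by rw [hz]; push_cast; ring
  have hzL : 64 * (z : ℝ) ≤ L := by
    rw [le_div_iff₀ hl0] at hKL
    have h1 : 8192 * (K : ℝ) ≤ L := by
      have hK0 : (0 : ℝ) ≤ K := Nat.cast_nonneg _
      calc 8192 * (K : ℝ) ≤ l * K := mul_le_mul_of_nonneg_right e3 hK0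
        _ = K * l := mul_comm _ _
        _ ≤ L := hKL
    rw [hzr]
    linarith
  have hsub : ((Icc 1 T).filter fun t => ¬ ((((ATQ (fun _ : Fin K => 4 * Y * T) (qt (G0 Y fun _ : Fin K => T) fun _ => t)).filter fun s =>
      cntQ Y (qt (G0 Y fun _ : Fin K => T) fun _ => t) s ≠ 0).card : ℝ) ≤ ε * (ATQ (fun _ : Fin K => 4 * Y * T) (qt (G0 Y fun _ : Fin K => T) fun _ => t)).card)) ⊆
      ((Icc 1 T).filter fun t => ¬ GG z (qt (G0 Y fun _ : Fin K => T) fun _ => t) ≤ 1 / 8) := by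
    intro t ht
    rw [mem_filter] at ht ⊢
    refine ⟨ht.1, fun hG => ht.2 ?_⟩
    have hS : SysL z Y X (fun _ : Fin K => 4 * Y * T) (qt (G0 Y fun _ : Fin K => T) fun _ => t) :=
      sysL_qt (T := fun _ : Fin K => T) (t := fun _ => t) (by rw [Fintype.mem_piFinset]; exact fun _ => ht.1) fun i =>
      ⟨hSc.1, hSc.2.trans (Nat.mul_le_mul_right _ (Uz_mono (by omega)))⟩
    have ht1 : 1 ≤ t ∧ t ≤ T := mem_Icc.1 ht.1
    refine low_core hC hmean hCv hvv hθ hε e5 (by linarith) (by omega) hzL hK1 (by omega) hY1 hl0 hY e1 e2 hS ?_ hG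
    intro i
    have e := qt_la Y (fun _ : Fin K => T) (fun _ => t) i ht1.1
    rw [e]
    calc t ≤ T := ht1.2
      _ ≤ 4 * Y * T := Nat.le_mul_of_pos_left _ (by omega)
  have h1 : ((((Icc 1 T).filter fun t => ¬ ((((ATQ (fun _ : Fin K => 4 * Y * T) (qt (G0 Y fun _ : Fin K => T) fun _ => t)).filter fun s =>
      cntQ Y (qt (G0 Y fun _ : Fin K => T) fun _ => t) s ≠ 0).card : ℝ) ≤ ε * (ATQ (fun _ : Fin K => 4 * Y * T) (qt (G0 Y fun _ : Fin K => T) fun _ => t)).card)).card : ℕ) : ℝ) ≤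
      ((((Icc 1 T).filter fun t => ¬ GG z (qt (G0 Y fun _ : Fin K => T) fun _ => t) ≤ 1 / 8).card : ℕ) : ℝ) := by
    exact_mod_cast card_le_card hsub
  exact h1.trans (hgm z Y K T (by omega) (by omega))

end Pool.Agent.Q145.LX

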