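import Pool.Agent.Q145.LX.Num
import Pool.Agent.Q272.SZ.PWC

/-!
# Project LX: the variance (adapted from `Pool/Agent/Q145/LT/Va.lean`)
-/

set_option autoImplicit false

namespace Pool.Agent.Q145.LX

open Finset Filter
open Pool.Agent.Q145.SZ Pool.Agent.Q145.LQ Pool.Agent.Q145.LE Pool.Agent.Q145.LT

/-- the bound of the variance, for given constants -/
def VBX (a₀ : ℕ) (θ : ℝ) : Prop := ∀ η : ℝ, 0 < η → ∃ M g : ℝ, 64 ≤ M ∧ 0 < g ∧ ∀ (z Y X K : ℕ) (H : Fin K → ℕ) (q : Fin K → Polynomial ℤ) (D : Fin K → Finset ℕ), M ≤ Real.log (Real.log X) →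
      64 * Real.log (Real.log X) ≤ z → 64 * z * Real.log (Real.log X) ≤ Real.log X → 64 / θ * z ≤ Real.log Y → (1 + θ) * (K * Real.log (Real.log X)) ≤ Real.log Y →
      Y ≤ X → 64 * (K + 1) ≤ z → SysL z Y X H q → GG z q ≤ g →
      (∀ i, H1Q (2 * (a₀ + 11)) z (H i) ∧ H2D (2 * (a₀ + 11)) z (H i) (D i)) →
      (((exq Y q D).card : ℝ) ≤ (Y : ℝ) ^ 2 / (PW z : ℝ) ^ (2 * (a₀ + 8))) →
      ∑ b ∈ AdQ (PW z) q, (∑ s ∈ SbQ H b, (wcQ Y q s / MbQ Y q b - 1) ^ 2) / ((SbQ H b).card : ℝ) ≤ η * ((AdQ (PW z) q).card : ℝ)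

open Classical in
theorem var_boundX {C : ℝ} (hC : 0 < C) (l1 : LAW1Q 1 C) (l2 : LAW2Q 1 C) (m1 : S_MOM1Q) (m2 : S_MOM2Q) (nok : S_NOK) (esq : S_ESQ)
    (sv : S_SIEVE) (ccb : S_CCB) (pb : S_PWB) (us : S_US) (pwc : S_PWC) : ∃ a₀ : ℕ, ∀ θ : ℝ, 0 < θ → θ ≤ 1 → VBX a₀ θ := by
  have hsq := hsqX
  obtain ⟨Cb, Xb, hCb, hbt⟩ := b2_bt
  obtain ⟨Cv, hCv, hvv⟩ := pwc
  obtain ⟨Cs, Xs, hCs, hsv⟩ := sv
  obtain ⟨Ch, zh, hCh, hhs⟩ := hsq
  obtain ⟨Nc, zc, hcc⟩ := ccb C hC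
  obtain ⟨z₁, hz₁⟩ := pb.2
  obtain ⟨a₁, ha₁⟩ := exists_nat_ge (2 * Cs)
  set a₀ : ℕ := max a₁ Nc with ha₀
  have ha₀1 : 2 * Cs ≤ (a₀ : ℝ) := ha₁.trans (by exact_mod_cast le_max_left _ _)
  have ha₀2 : Nc ≤ a₀ := le_max_right _ _
  refine ⟨a₀, ?_⟩
  intro θ hθ0 hθ1 η hη
  set η' := min η 1 with hη'
  have hη'0 : 0 < η' := by positivity
  have hη'1 : η' ≤ 1 := min_le_right _ _
  set M : ℝ := 64 + 256 / η' + Real.exp (64 * Ch / η') + zh + zc + z₁ + Xs + a₀ + 1 + 64 * Cb * Cv / θ ^ 2 + Xb with hM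
  have p9 : 0 < 64 * Cb * Cv / θ ^ 2 := by positivity
  have p10 : (0 : ℝ) ≤ Xb := by positivity
  have hκ : 64 ≤ 64 / θ := by
    rw [le_div_iff₀ hθ0]
    linarith
  have p1 : 0 < 256 / η' := by positivity
  have p4 := Real.exp_pos (64 * Ch / η')
  have p5 : (0 : ℝ) ≤ zh := by positivity
  have p5' : (0 : ℝ) ≤ zc := by positivity
  have p6 : (0 : ℝ) ≤ z₁ := by positivity
  have p7 : (0 : ℝ) ≤ Xs := by positivity
  have p8 : (0 : ℝ) ≤ a₀ := by positivity
  have hM64 : 64 ≤ M := by linarith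
  have hM1 : 1 ≤ M := by linarith
  refine ⟨M, η' / 256, hM64, by positivity, ?_⟩
  intro z Y X K H q D hX hz hzX hzY hKY hYX hK hS hGG hIN hex
  have hCh0 : (0 : ℝ) ≤ Ch := by positivity
  obtain ⟨hL0, hLM, hzM, hzL, hzl, hXe, hYe, hLe, hl64, hlL, hYXl, hzY64⟩ := elemX hM64 hκ hX hYX hz hzX hzY
  have hzL64 : 64 * z * Real.log (Real.log X) ≤ Real.log X := hzX
  have hscale := fun (Z : ℕ) (h1 : X ≤ Z) (h2 : Z ≤ Uz z * X) => scaleE hl64 hz hzL64 h1 h2
  have hM0 : 0 < M := by linarith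
  have hz0 : (0 : ℝ) < z := by linarith
  have hzMM : M ≤ z := by linarith
  have hU0 : (0 : ℝ) < Uz z := by exact_mod_cast Uz_pos z
  have hz1 : z₁ ≤ z := by
    have : (z₁ : ℝ) ≤ z := by linarith
    exact_mod_cast this
  have hzh : zh ≤ z := by
    have : (zh : ℝ) ≤ z := by linarith
    exact_mod_cast this
  have hzc : zc ≤ z := by
    have : (zc : ℝ) ≤ z := by linarith
    exact_mod_cast this
  have hz64 : 64 ≤ z := by
    have : (64 : ℝ) ≤ z := by linarith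
    exact_mod_cast this
  have hXL : Real.log X ≤ X := by
    have := Real.add_one_le_exp (Real.log X)
    rw [← hXe] at this; linarith
  have hXs : Xs ≤ X := by
    have : (Xs : ℝ) ≤ X := by linarith
    exact_mod_cast this
  have hX3 : 3 ≤ X := by
    have : (3 : ℝ) ≤ X := by linarith
    exact_mod_cast this
  have hX0 : (0 : ℝ) < X := by linarith
  set L := Real.log X with hL
  set l := Real.log L with hl
  set LY := Real.log Y with hLY
  have hW1 := one_le_PW z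
  have hWe : (PW z : ℝ) ≤ Real.exp (2 * z) := PW_le pb z
  have hW0 : (0 : ℝ) < PW z := by linarith
  have hzl' : (z : ℝ) ≤ z * l := by nlinarith
  have hLYz : 64 * (z : ℝ) ≤ LY := hzY64
  -- δ
  have hlz0' : 64 * Ch / η' ≤ Real.log z := by
    rw [Real.le_log_iff_exp_le hz0]; linarith
  have hCh1 : (1 : ℝ) ≤ Ch := by exact_mod_cast hCh
  have hlz0 : 0 < Real.log z := lt_of_lt_of_le (by positivity) hlz0'
  have hδh1 : (Ch : ℝ) / Real.log z ≤ η' / 64 := by
    rw [div_le_iff₀ hlz0]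
    rw [div_le_iff₀ hη'0] at hlz0'
    linarith
  have hδh0 : 0 ≤ (Ch : ℝ) / Real.log z := by positivity
  have hGG0 := GG_nonneg z q
  set δ : ℝ := (1 + (Ch : ℝ) / Real.log z) * Real.exp (4 * GG z q) - 1 with hδ
  have hδ0 : 0 ≤ δ := by
    have h1 : 1 ≤ Real.exp (4 * GG z q) := Real.one_le_exp (by positivity)
    rw [hδ]
    nlinarith
  have hδh : δ ≤ η' / 16 := by
    have h1 : Real.exp (4 * GG z q) ≤ 1 + η' / 32 := by
      have h2 := Pool.Agent.Q261.SZ.exp_quad (x := 4 * GG z q) (by positivity) (by linarith)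
      nlinarith
    have h3 : (1 + (Ch : ℝ) / Real.log z) * Real.exp (4 * GG z q) ≤ (1 + η' / 64) * (1 + η' / 32) := by
      apply mul_le_mul (by linarith) h1 (Real.exp_pos _).le (by positivity)
    rw [hδ]
    nlinarith
  have hδe : (1 + (Ch : ℝ) / Real.log z) * Real.exp (4 * GG z q) = 1 + δ := by rw [hδ]; ring
  have hL1 : 1 ≤ L := by linarith
  have hε0 : 0 ≤ 1 / L ^ (a₀ + 11) := by positivity
  -- conditions
  have hW20 : (PW z : ℝ) ^ 20 ≤ X := by
    calc (PW z : ℝ) ^ 20 ≤ (Real.exp (2 * z)) ^ 20 := by gcongr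
      _ = Real.exp (40 * z) := by rw [← Real.exp_nat_mul]; ring_nf
      _ ≤ Real.exp L := Real.exp_le_exp.2 (by linarith)
      _ = X := hXe.symm
  have hWX : 2 * (PW z : ℝ) ≤ X := by
    calc 2 * (PW z : ℝ) ≤ Real.exp z * Real.exp (2 * z) := by
          gcongr; linarith [Real.add_one_le_exp (z : ℝ)]
      _ = Real.exp (3 * z) := by rw [← Real.exp_add]; ring_nf
      _ ≤ Real.exp L := Real.exp_le_exp.2 (by linarith)
      _ = X := hXe.symm
  have hWXn : PW z ≤ X := by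
    have : (PW z : ℝ) ≤ X := by linarith
    exact_mod_cast this
  have hWY : PW z ≤ Y := by
    have : (PW z : ℝ) ≤ Y := by
      calc (PW z : ℝ) ≤ Real.exp (2 * z) := hWe
        _ ≤ Real.exp LY := Real.exp_le_exp.2 (by linarith)
        _ = Y := hYe.symm
    exact_mod_cast this
  have hKz' : (64 : ℝ) * (K + 1) ≤ z := by exact_mod_cast hK
  have hK0 : (0 : ℝ) ≤ K := by positivity
  have hKz : (32 : ℝ) * (K + 1) ≤ z := by linarith
  have hKn : 32 * K ≤ z := by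
    have : (32 : ℝ) * K ≤ z := by linarith
    exact_mod_cast this
  have hcond : (PW z : ℝ) ^ 4 ≤ Y := by
    calc (PW z : ℝ) ^ 4 ≤ (Real.exp (2 * z)) ^ 4 := by gcongr
      _ = Real.exp (8 * z) := by rw [← Real.exp_nat_mul]; ring_nf
      _ ≤ Real.exp LY := Real.exp_le_exp.2 (by linarith)
      _ = Y := hYe.symm
  have hW2X : PW z ^ 2 ≤ X := by
    have : (PW z : ℝ) ^ 2 ≤ X := by
      calc (PW z : ℝ) ^ 2 ≤ (PW z : ℝ) ^ 20 := pow_le_pow_right₀ hW1 (by norm_num)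
        _ ≤ X := hW20
    exact_mod_cast this
  have h2WX : 2 * PW z ≤ X := by exact_mod_cast hWX
  have hXb : Xb ≤ X := by
    have : (Xb : ℝ) ≤ X := by linarith
    exact_mod_cast this
  -- the trivial bound
  have hvz : vv (PW z) ≤ Cv * l := by
    refine (hvv z (by omega)).1.trans ?_
    apply mul_le_mul_of_nonneg_left _ hCv.le
    rw [hl]
    exact Real.log_le_log hz0 (by linarith)
  set D₀ : ℝ := 2 * Cb * Cv * l * L with hD₀
  have hD₀0 : 0 ≤ D₀ := by positivity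
  have hD₀1 : D₀ ≤ Real.exp ((1 + θ / 4) * l) := by
    have e1 : Real.exp ((1 + θ / 4) * l) = Real.exp (θ / 4 * l) * L := by
      have : (1 + θ / 4) * l = θ / 4 * l + l := by ring
      rw [this, Real.exp_add, ← hLe]
    rw [e1, hD₀]
    apply mul_le_mul_of_nonneg_right _ hL0.le
    have e2 : (θ / 4 * l) ^ 2 / 2 ≤ Real.exp (θ / 4 * l) := by
      have := Real.quadratic_le_exp_of_nonneg (x := θ / 4 * l) (by positivity)
      have h0 : 0 ≤ θ / 4 * l := by positivity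
      linarith
    refine le_trans ?_ e2
    have e3 : 64 * Cb * Cv / θ ^ 2 ≤ l := by linarith
    rw [div_le_iff₀ (by positivity)] at e3
    have e4 : (θ / 4 * l) ^ 2 / 2 = (l * θ ^ 2) * l / 32 := by ring
    rw [e4]
    have e5 : 64 * Cb * Cv * l ≤ l * θ ^ 2 * l := mul_le_mul_of_nonneg_right e3 (by linarith)
    linarith
  have hSP : ∀ Z h, 1 / 2 ≤ SP z Z h := fun Z h => us.2.2 z Z h (by omega)
  have hSP0 : ∀ Z h, 0 < SP z Z h := fun Z h => lt_of_lt_of_le (by norm_num) (hSP Z h)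
  have hv := vv_pos z
  have hXH : ∀ i, X ≤ H i := fun i => (hS.scale i).1
  have hcast : ∀ i, ∀ n ∈ Ioc Y (2 * Y), ((vq (q i) n : ℕ) : ZMod (PW z)) = ev (q i) (n : ZMod (PW z)) := fun i n hn => cast_vq _ _ (hS.nonneg i hn)
  have hdeg : ∀ i, (q i).natDegree ≤ 1 := fun i => (hS.deg' i).2
  -- the first moment
  have f1 := m1 1 C hC l1 (PW z) Y K H q (3 * (1 / L ^ (a₀ + 11) + PW z / X)) (PW_sqf z) hWY (fun i => hWXn.trans (hXH i)) (by positivity) hdeg
    (fun i n hn => hS.nonneg i hn) (by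
      intro i n hn
      obtain ⟨s1, s2, s3, s4⟩ := hscale _ (hXH i) (hS.scale i).2
      have h5 := (hIN i).1 (vq (q i) n) (hS.mem i hn).1
      rw [hcast i n hn] at h5
      refine h5.trans ?_
      rw [mul_pow]
      refine mul_le_mul_of_nonneg_right (mul_le_mul_of_nonneg_right ?_ (sq_nonneg _)) (Nat.cast_nonneg _)
      have h7 : 1 / Real.log (H i) ^ (2 * (a₀ + 11)) ≤ (1 / L ^ (a₀ + 11)) ^ 2 := by
        rw [div_pow, one_pow, ← pow_mul, mul_comm (a₀ + 11) 2]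
        gcongr
      have h8 : (PW z : ℝ) / (H i : ℝ) ≤ PW z / X := by
        have : (X : ℝ) ≤ (H i : ℝ) := by exact_mod_cast hXH i
        gcongr
      have h9 : ((PW z : ℝ) / (H i : ℝ)) ^ 2 ≤ (PW z / X) ^ 2 := by gcongr
      have h10 : 0 ≤ (PW z : ℝ) / X := by positivity
      nlinarith [mul_nonneg hε0 h10])
  -- sums over few pairs
  have hHS1 := hhs z Y X K 1 H q hzh (by norm_num) hKn hS hcond
  have hHS2 := hhs z Y X K 2 H q hzh le_rfl hKn hS hcond
  have hesum := esq (PW z) Y K q (fun n m => ∏ i, SP z (H i) (dst (vq (q i) n) (vq (q i) m))) (exq Y q D) (1 / (PW z : ℝ) ^ (a₀ + 8)) (by positivity)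
    (fun n m => prod_nonneg fun i _ => (hSP0 _ _).le) (by
      intro c e
      refine le_trans (le_of_eq ?_) ((hHS2 c e).trans ?_)
      · refine sum_congr rfl fun n _ => sum_congr rfl fun m _ => ?_
        rw [← prod_pow]
      · rw [mul_assoc, hδe]
        apply mul_le_mul_of_nonneg_left _ (by positivity)
        linarith) (by
      refine hex.trans (le_of_eq ?_)
      rw [div_pow, one_pow, ← pow_mul, mul_comm (a₀ + 8) 2]
      field_simp)
  -- the second moment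
  have f2 := m2 1 C hC l2 (PW z) Y K H q (1 / L ^ (2 * (a₀ + 11))) (2 * Cs) D₀ δ (2 / (PW z : ℝ) ^ (a₀ + 8)) (1 + K * (1 : ℕ))
    (fun i n m => SP z (H i) (dst (vq (q i) n) (vq (q i) m))) (exq Y q D) (PW_sqf z) hWY (fun i => hWXn.trans (hXH i)) hdeg (fun i n hn => hS.nonneg i hn)
    (by positivity) (by positivity) (by positivity) hδ0 (by positivity) (fun i n m => hSP0 _ _)
    (by
      intro i n hn m hm hok hnE
      obtain ⟨s1, s2, s3, s4⟩ := hscale _ (hXH i) (hS.scale i).2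
      have hd : dst (vq (q i) n) (vq (q i) m) ∉ D i := by
        intro h
        apply hnE
        unfold exq
        rw [mem_filter, mem_product]
        exact ⟨⟨hn, hm⟩, i, h⟩
      have h5 := (hIN i).2 (vq (q i) n) (hS.mem i hn).1 (vq (q i) m) (hS.mem i hm).1 (hS.mem i hn).2 (hS.mem i hm).2 (hok.2 i) hd
      rw [hcast i n hn, hcast i m hm] at h5
      refine h5.trans ?_
      have h8 := (hSP0 (H i) (dst (vq (q i) n) (vq (q i) m))).le
      have h7 : 1 / Real.log (H i) ^ (2 * (a₀ + 11)) ≤ 1 / L ^ (2 * (a₀ + 11)) :=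
        one_div_le_one_div_of_le (pow_pos hL0 _) (pow_le_pow_left₀ hL0.le s1 _)
      have h9 : 0 ≤ 1 / Real.log (H i) ^ (2 * (a₀ + 11)) :=
        one_div_nonneg.2 (pow_nonneg (hL0.le.trans s1) _)
      exact mul_le_mul_of_nonneg_right (pow_le_pow_left₀ (mul_nonneg (mul_nonneg h9 (sq_nonneg _)) h8)
        (mul_le_mul_of_nonneg_right (mul_le_mul_of_nonneg_right h7 (sq_nonneg _)) h8) 2) (Nat.cast_nonneg _))
    (by
      intro i n hn m hm β hβ
      apply B2_zero (hWXn.trans (hXH i)) (hS.mem i hn).1 (hS.mem i hm).1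
      rw [hcast i n hn, hcast i m hm]
      exact hβ)
    (by
      intro i n hn m hm hok β
      have s5r : (X : ℝ) ≤ (H i : ℝ) := by exact_mod_cast hXH i
      exact B2_le hCs (hSP0 _ _).le (hWX.trans s5r) (hsv z (H i) (hXs.trans (hXH i)) (by omega) (hW20.trans s5r) _ (hS.mem i hn).1 _ (hS.mem i hm).1 (hok.2 i) β))
    (by
      intro i n hn m hm β
      obtain ⟨s1, s2, s3, s4⟩ := hscale _ (hXH i) (hS.scale i).2
      refine (hbt z (H i) _ _ (hXb.trans (hXH i)) (hW2X.trans (hXH i)) (h2WX.trans (hXH i)) (hX3.trans (hXH i)) (hS.mem i hn).1 (hS.mem i hm).1 β).trans ?_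
      calc Cb * Real.log (H i) * vv (PW z) ≤ Cb * (2 * L) * (Cv * l) := by
            have := (Pool.Agent.Q145.SZ.vv_pos z).le
            gcongr
        _ = D₀ := by rw [hD₀]; ring)
    (by
      intro c e
      refine le_trans (le_of_eq ?_) ((hHS1 c e).trans (le_of_eq (by rw [mul_assoc, hδe])))
      simp only [pow_one])
    (by
      refine hesum.trans (le_of_eq ?_)
      ring)
    (nok 1 Y K q hS.deg' (fun i n hn => hS.nonneg i hn))
  have hnum := num_partX (Y := Y) (a₀ := a₀) (Nc := Nc) (C := C) hθ0 hθ1 hη'0 hη'1 hM64 (by linarith) (by positivity : (0:ℝ) ≤ 2 * Cs) ha₀1 ha₀2 (by linarith) pb (hz₁ z hz1)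
    (hcc z hzc).1 (hcc z hzc).2 hX hYX hz hzX hzY hKY hK hδ0 hδh hD₀0 hD₀1
  have hcard : (0 : ℝ) ≤ ((AdQ (PW z) q).card : ℝ) := Nat.cast_nonneg _
  refine (split_sqQ H q).trans ?_
  have := mul_le_mul_of_nonneg_right hnum hcard
  have hηη : η' * ((AdQ (PW z) q).card : ℝ) ≤ η * ((AdQ (PW z) q).card : ℝ) := by
    exact mul_le_mul_of_nonneg_right (min_le_left _ _) hcard
  refine le_trans ?_ hηη
  refine le_trans ?_ this
  have e : ∀ u v w : ℝ, (u - 2 * v + 1) * w = u * w - 2 * (v * w) + w := by intro u v w; ring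
  rw [e]
  gcongr


end Pool.Agent.Q145.LX
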